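import Pool.Agent.Lib.MP_554556_an.Defs

set_option autoImplicit false

namespace Pool.Agent.Lib.MP_554556_an

open Matrix
open scoped Quaternion

variable {ι : Type} [Fintype ι]

/-- Right multiplication of a vector by a quaternion. -/
noncomputable def rm (v : ι → Quaternion ℝ) (q : Quaternion ℝ) : ι → Quaternion ℝ := fun i => v i * q

/-- The sesquilinear form of a matrix. -/
noncomputable def fm (K : Matrix ι ι (Quaternion ℝ)) (u w : ι → Quaternion ℝ) : Quaternion ℝ :=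
  star u ⬝ᵥ (K *ᵥ w)

/-- The quaternion `β i`. -/
def mu (β : ℝ) : Quaternion ℝ := ⟨0, β, 0, 0⟩

/-- The quaternion `j`. -/
def jj : Quaternion ℝ := ⟨0, 0, 1, 0⟩

omit [Fintype ι] in
lemma rm_add (u v : ι → Quaternion ℝ) (q : Quaternion ℝ) : rm (u + v) q = rm u q + rm v q := by
  funext i; simp [rm, add_mul]

omit [Fintype ι] in
lemma rm_sub (u v : ι → Quaternion ℝ) (q : Quaternion ℝ) : rm (u - v) q = rm u q - rm v q := by
  funext i; simp [rm, sub_mul]

omit [Fintype ι] in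
lemma rm_smul (c : ℝ) (v : ι → Quaternion ℝ) (q : Quaternion ℝ) : rm (c • v) q = c • rm v q := by
  funext i; simp [rm]

omit [Fintype ι] in
lemma rm_rm (v : ι → Quaternion ℝ) (p q : Quaternion ℝ) : rm (rm v p) q = rm v (p * q) := by
  funext i; simp [rm, mul_assoc]

omit [Fintype ι] in
lemma rm_neg (v : ι → Quaternion ℝ) (q : Quaternion ℝ) : rm v (-q) = -rm v q := by
  funext i; simp [rm]

omit [Fintype ι] in
lemma rm_coe (v : ι → Quaternion ℝ) (c : ℝ) : rm v (c : Quaternion ℝ) = c • v := by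
  funext i; simp [rm, Quaternion.mul_coe_eq_smul]

omit [Fintype ι] in
lemma rm_eq_zero (v : ι → Quaternion ℝ) (q : Quaternion ℝ) (hq : q ≠ 0) (h : rm v q = 0) :
    v = 0 := by
  funext i
  have := congrFun h i
  simpa [rm, hq] using this

lemma mulVec_rm (K : Matrix ι ι (Quaternion ℝ)) (v : ι → Quaternion ℝ) (q : Quaternion ℝ) :
    K *ᵥ rm v q = rm (K *ᵥ v) q := by
  funext i; simp [rm, Matrix.mulVec, dotProduct, Finset.sum_mul, mul_assoc]

lemma fm_add_left (K : Matrix ι ι (Quaternion ℝ)) (u v w : ι → Quaternion ℝ) :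
    fm K (u + v) w = fm K u w + fm K v w := by
  simp [fm, star_add, add_dotProduct]

lemma fm_add_right (K : Matrix ι ι (Quaternion ℝ)) (u v w : ι → Quaternion ℝ) :
    fm K u (v + w) = fm K u v + fm K u w := by
  simp [fm, Matrix.mulVec_add, dotProduct_add]

lemma fm_sub_right (K : Matrix ι ι (Quaternion ℝ)) (u v w : ι → Quaternion ℝ) :
    fm K u (v - w) = fm K u v - fm K u w := by
  simp [fm, Matrix.mulVec_sub, dotProduct_sub]

lemma fm_rm_right (K : Matrix ι ι (Quaternion ℝ)) (u w : ι → Quaternion ℝ) (q : Quaternion ℝ) :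
    fm K u (rm w q) = fm K u w * q := by
  simp [fm, mulVec_rm, dotProduct, rm, Finset.sum_mul, mul_assoc]

lemma fm_rm_left (K : Matrix ι ι (Quaternion ℝ)) (u w : ι → Quaternion ℝ) (q : Quaternion ℝ) :
    fm K (rm u q) w = star q * fm K u w := by
  simp [fm, dotProduct, rm, Finset.mul_sum, mul_assoc]

lemma fm_smul_smul (K : Matrix ι ι (Quaternion ℝ)) (u : ι → Quaternion ℝ) (c : ℝ) :
    (fm K (c • u) (c • u)).re = c ^ 2 * (fm K u u).re := by
  rw [← rm_coe, fm_rm_left, fm_rm_right]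
  simp; ring

lemma fm_star (K : Matrix ι ι (Quaternion ℝ)) (u w : ι → Quaternion ℝ) :
    star (fm K u w) = fm Kᴴ w u := by
  simp only [fm, dotProduct, Matrix.mulVec, star_sum, star_mul, Pi.star_apply, star_star,
    Matrix.conjTranspose_apply, Finset.mul_sum]
  rw [Finset.sum_comm]
  simp only [mul_assoc]

lemma fm_mul (G C : Matrix ι ι (Quaternion ℝ)) (u w : ι → Quaternion ℝ) :
    fm (G * C) u w = fm G u (C *ᵥ w) := by
  simp [fm, Matrix.mulVec_mulVec]

lemma fm_neg (G : Matrix ι ι (Quaternion ℝ)) (u w : ι → Quaternion ℝ) :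
    fm (-G) u w = -fm G u w := by
  simp [fm, Matrix.neg_mulVec]

lemma fm_skew (G C : Matrix ι ι (Quaternion ℝ)) (hG : Gᴴ = -G) (hK : (G * C)ᴴ = G * C)
    (u w : ι → Quaternion ℝ) : fm G u (C *ᵥ w) = -fm G (C *ᵥ u) w := by
  have h1 : star (fm (G * C) w u) = fm (G * C) u w := by rw [fm_star, hK]
  rw [← fm_mul, ← h1, fm_mul, fm_star, hG, fm_neg]

lemma fm_real (K : Matrix ι ι (Quaternion ℝ)) (hK : Kᴴ = K) (u : ι → Quaternion ℝ) :
    fm K u u = ((fm K u u).re : Quaternion ℝ) := by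
  have h : star (fm K u u) = fm K u u := by rw [fm_star, hK]
  exact Quaternion.star_eq_self.mp h

lemma star_mu (β : ℝ) : star (mu β) = -mu β := by
  ext <;> simp [mu]

lemma mu_neg (β : ℝ) : mu (-β) = -mu β := by
  ext <;> simp [mu]

lemma mu_mul_mu (β : ℝ) : mu β * mu β = ((-β ^ 2 : ℝ) : Quaternion ℝ) := by
  ext <;> simp [mu, pow_two]

lemma mu_ne_zero (β : ℝ) (h : β ≠ 0) : mu β ≠ 0 := by
  intro h0
  have := congrArg QuaternionAlgebra.imI h0
  exact h (by simpa [mu] using this)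

/-- `D β v = C v - v (β i)`. -/
noncomputable def D (C : Matrix ι ι (Quaternion ℝ)) (β : ℝ) (v : ι → Quaternion ℝ) :
    ι → Quaternion ℝ := C *ᵥ v - rm v (mu β)

/-- No nonzero neutral eigenvector for the eigenvalue `β i`. -/
def NN (G C : Matrix ι ι (Quaternion ℝ)) (β : ℝ) : Prop :=
  ∀ v, C *ᵥ v = rm v (mu β) → (fm (G * C) v v).re = 0 → v = 0

lemma D_D_neg (C : Matrix ι ι (Quaternion ℝ)) (β : ℝ) (v : ι → Quaternion ℝ) :
    D C β (D C (-β) v) = C *ᵥ (C *ᵥ v) + β ^ 2 • v := by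
  simp only [D, mu_neg, rm_neg, sub_neg_eq_add, Matrix.mulVec_add, mulVec_rm, rm_add, rm_rm,
    mu_mul_mu, rm_coe, neg_smul]
  abel

lemma D_neg_D (C : Matrix ι ι (Quaternion ℝ)) (β : ℝ) (v : ι → Quaternion ℝ) :
    D C (-β) (D C β v) = C *ᵥ (C *ᵥ v) + β ^ 2 • v := by
  have := D_D_neg C (-β) v
  rwa [neg_neg, neg_sq] at this

lemma jordan (G C : Matrix ι ι (Quaternion ℝ)) (hG : Gᴴ = -G) (hK : (G * C)ᴴ = G * C) (β : ℝ)
    (hN : NN G C β) (w : ι → Quaternion ℝ) (h : D C β (D C β w) = 0) : D C β w = 0 := by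
  set w1 := D C β w with hw1
  have e1 : C *ᵥ w1 = rm w1 (mu β) := sub_eq_zero.mp h
  have e2 : C *ᵥ w = rm w (mu β) + w1 := by rw [hw1, D]; abel
  apply hN w1 e1
  have h1 := fm_skew G C hG hK w1 w
  rw [e1, e2, fm_add_right, fm_rm_right, fm_rm_left, star_mu] at h1
  have h2 : fm G w1 w1 = mu β * fm G w1 w - fm G w1 w * mu β := by
    rw [eq_sub_iff_add_eq, add_comm, h1]; simp
  rw [fm_mul, e1, fm_rm_right, h2]
  simp only [mu, Quaternion.re_mul, Quaternion.re_sub, Quaternion.imI_sub, Quaternion.imJ_sub,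
    Quaternion.imK_sub, Quaternion.imI_mul, Quaternion.imJ_mul, Quaternion.imK_mul]
  ring

/-- The operator `v ↦ C² v + β² v`. -/
noncomputable def Pop (C : Matrix ι ι (Quaternion ℝ)) (β : ℝ) (v : ι → Quaternion ℝ) :
    ι → Quaternion ℝ := C *ᵥ (C *ᵥ v) + β ^ 2 • v

lemma Pop_Pop (G C : Matrix ι ι (Quaternion ℝ)) (hG : Gᴴ = -G) (hK : (G * C)ᴴ = G * C) (β : ℝ)
    (hN : NN G C β) (hN' : NN G C (-β)) (v : ι → Quaternion ℝ)
    (h : Pop C β (Pop C β v) = 0) : Pop C β v = 0 := by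
  have p1 : ∀ u, Pop C β u = D C β (D C (-β) u) := fun u => (D_D_neg C β u).symm
  have p2 : ∀ u, Pop C β u = D C (-β) (D C β u) := fun u => (D_neg_D C β u).symm
  have comm : ∀ u, D C β (D C (-β) u) = D C (-β) (D C β u) := fun u => by rw [← p1, ← p2]
  have h1 : D C β (D C β (D C (-β) (D C (-β) v))) = 0 := by
    rw [comm (D C (-β) v), ← p1 v, ← p1, h]
  have h2 := jordan G C hG hK β hN _ h1
  rw [comm, comm] at h2
  have h3 := jordan G C hG hK (-β) hN' _ h2
  rw [p2, h3]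

lemma definite_E (G C : Matrix ι ι (Quaternion ℝ)) (β : ℝ) (hN : NN G C β) :
    (∀ v, C *ᵥ v = rm v (mu β) → v ≠ 0 → 0 < (fm (G * C) v v).re) ∨
    (∀ v, C *ᵥ v = rm v (mu β) → v ≠ 0 → (fm (G * C) v v).re < 0) := by
  by_contra hcon
  push Not at hcon
  obtain ⟨⟨u, hu, hu0, hu1⟩, ⟨w, hw, hw0, hw1⟩⟩ := hcon
  let f : ℝ → ℝ := fun s => (fm (G * C) ((1 - s) • u + s • w) ((1 - s) • u + s • w)).re
  have hf : Continuous f := by
    apply Quaternion.continuous_re.comp
    simp only [fm, dotProduct, Matrix.mulVec, Pi.star_apply, Pi.add_apply, Pi.smul_apply]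
    fun_prop
  have f0 : f 0 ≤ 0 := by simpa [f] using hu1
  have f1 : 0 ≤ f 1 := by simpa [f] using hw1
  obtain ⟨s, _, hs⟩ := intermediate_value_Icc zero_le_one hf.continuousOn ⟨f0, f1⟩
  have hz : (1 - s) • u + s • w = 0 := by
    apply hN _ _ hs
    rw [Matrix.mulVec_add, Matrix.mulVec_smul, Matrix.mulVec_smul, hu, hw, rm_add, rm_smul,
      rm_smul]
  have hz' : (1 - s) • u = (-s) • w := by
    rw [neg_smul]; exact eq_neg_of_add_eq_zero_left hz
  have hq : (1 - s) ^ 2 * (fm (G * C) u u).re = (-s) ^ 2 * (fm (G * C) w w).re := by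
    rw [← fm_smul_smul, ← fm_smul_smul, hz']
  by_cases h1 : s = 1
  · subst h1; apply hw0; simpa using hz
  · have hpos : 0 < (1 - s) ^ 2 := by
      have : 1 - s ≠ 0 := fun h => h1 (by linarith)
      positivity
    have h2 : 0 ≤ (-s) ^ 2 * (fm (G * C) w w).re := by positivity
    have h3 : (fm (G * C) u u).re = 0 := by
      apply le_antisymm hu1
      by_contra h4
      push Not at h4
      nlinarith
    exact hu0 (hN u hu h3)

lemma cross (G C : Matrix ι ι (Quaternion ℝ)) (hG : Gᴴ = -G) (hK : (G * C)ᴴ = G * C) (β : ℝ)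
    (u w : ι → Quaternion ℝ) (hu : C *ᵥ u = rm u (mu β)) (hw : C *ᵥ w = rm w (mu (-β))) :
    (fm (G * C) u w).re = 0 := by
  have h1 := fm_skew G C hG hK u w
  rw [hu, hw, fm_rm_right, fm_rm_left, star_mu] at h1
  rw [fm_mul, hw, fm_rm_right]
  have h2 := congrArg QuaternionAlgebra.re h1
  simp [mu] at h2 ⊢
  rcases eq_or_ne β 0 with hb | hb
  · right; exact hb
  · left
    have : (fm G u w).imI * β = 0 := by linarith
    simpa [hb] using this

lemma jtrick (C : Matrix ι ι (Quaternion ℝ)) (β : ℝ) (w : ι → Quaternion ℝ)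
    (hw : C *ᵥ w = rm w (mu (-β))) : C *ᵥ rm w jj = rm (rm w jj) (mu β) := by
  rw [mulVec_rm, hw, rm_rm, rm_rm]
  congr 1
  ext <;> simp [mu, jj]

lemma fm_jj (K : Matrix ι ι (Quaternion ℝ)) (w : ι → Quaternion ℝ) :
    (fm K (rm w jj) (rm w jj)).re = (fm K w w).re := by
  rw [fm_rm_left, fm_rm_right]
  simp [jj]

lemma split (G C : Matrix ι ι (Quaternion ℝ)) (hG : Gᴴ = -G) (hK : (G * C)ᴴ = G * C) (β : ℝ)
    (hβ : β ≠ 0) (v : ι → Quaternion ℝ) (hv : Pop C β v = 0) (hv0 : v ≠ 0) :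
    ∃ u w, C *ᵥ u = rm u (mu β) ∧ C *ᵥ w = rm w (mu β) ∧ (u ≠ 0 ∨ w ≠ 0) ∧
      (fm (G * C) v v).re = (fm (G * C) u u).re + (fm (G * C) w w).re := by
  set c : Quaternion ℝ := mu (-(2 * β)⁻¹) with hc
  set u := rm (D C (-β) v) c with hu
  set w := rm (D C β v) (-c) with hw
  have hcm : ∀ b : ℝ, mu b * c = c * mu b := fun b => by ext <;> simp [hc, mu]; ring
  have e1 : C *ᵥ D C (-β) v = rm (D C (-β) v) (mu β) := by
    have := D_D_neg C β v
    rw [← sub_eq_zero]; exact this.trans hv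
  have e2 : C *ᵥ D C β v = rm (D C β v) (mu (-β)) := by
    have := D_neg_D C β v
    rw [← sub_eq_zero]; exact this.trans hv
  have hu' : C *ᵥ u = rm u (mu β) := by
    rw [hu, mulVec_rm, e1, rm_rm, rm_rm, hcm]
  have hw' : C *ᵥ w = rm w (mu (-β)) := by
    rw [hw, mulVec_rm, e2, rm_rm, rm_rm, mul_neg, neg_mul, hcm]
  have hsum : v = u + w := by
    have h1 : (mu β + mu β) * c = 1 := by
      ext <;> simp [hc, mu]
      field_simp; norm_num
    funext i
    simp only [hu, hw, D, rm, mu_neg, Pi.add_apply, Pi.sub_apply]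
    calc v i = v i * ((mu β + mu β) * c) := by rw [h1, mul_one]
      _ = _ := by noncomm_ring
  refine ⟨u, rm w jj, hu', jtrick C β w hw', ?_, ?_⟩
  · by_contra hcon
    push Not at hcon
    obtain ⟨h1, h2⟩ := hcon
    have h3 : w = 0 := rm_eq_zero w jj (by
      intro h0
      have := congrArg QuaternionAlgebra.imJ h0
      simp [jj] at this) h2
    exact hv0 (by rw [hsum, h1, h3, add_zero])
  · have c1 := cross G C hG hK β u w hu' hw'
    have c2 := cross G C hG hK (-β) w u hw' (by rwa [neg_neg])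
    rw [fm_jj]
    conv_lhs => rw [hsum]
    simp only [fm_add_left, fm_add_right, Quaternion.re_add, c1, c2]
    ring

lemma fm_zero (K : Matrix ι ι (Quaternion ℝ)) : fm K 0 0 = 0 := by simp [fm]

/-- Definiteness on the kernel of `C² + β²`. -/
lemma definite_ker (G C : Matrix ι ι (Quaternion ℝ)) (hG : Gᴴ = -G) (hK : (G * C)ᴴ = G * C)
    (β : ℝ) (hβ : β ≠ 0) (hN : NN G C β) :
    (∀ v, Pop C β v = 0 → v ≠ 0 → 0 < (fm (G * C) v v).re) ∨
    (∀ v, Pop C β v = 0 → v ≠ 0 → (fm (G * C) v v).re < 0) := by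
  rcases definite_E G C β hN with h | h
  · left
    intro v hv hv0
    obtain ⟨u, w, hu, hw, huw, e⟩ := split G C hG hK β hβ v hv hv0
    have nn : ∀ z, C *ᵥ z = rm z (mu β) → 0 ≤ (fm (G * C) z z).re := fun z hz => by
      by_cases h0 : z = 0
      · simp [h0, fm_zero]
      · exact (h z hz h0).le
    rcases huw with h1 | h1
    · have := h u hu h1; have := nn w hw; linarith
    · have := h w hw h1; have := nn u hu; linarith
  · right
    intro v hv hv0
    obtain ⟨u, w, hu, hw, huw, e⟩ := split G C hG hK β hβ v hv hv0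
    have nn : ∀ z, C *ᵥ z = rm z (mu β) → (fm (G * C) z z).re ≤ 0 := fun z hz => by
      by_cases h0 : z = 0
      · simp [h0, fm_zero]
      · exact (h z hz h0).le
    rcases huw with h1 | h1
    · have := h u hu h1; have := nn w hw; linarith
    · have := h w hw h1; have := nn u hu; linarith

lemma pow_ker [DecidableEq ι] (P : Matrix ι ι (Quaternion ℝ))
    (h : ∀ v, P *ᵥ (P *ᵥ v) = 0 → P *ᵥ v = 0) (N : ℕ) :
    ∀ v, P ^ N *ᵥ v = 0 → P *ᵥ v = 0 := by
  induction N with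
  | zero => intro v hv; simp at hv; simp [hv]
  | succ N ih =>
    intro v hv
    rw [pow_succ, ← Matrix.mulVec_mulVec] at hv
    exact h v (ih _ hv)

/-- The abstract algebraic statement. -/
theorem definite_root [DecidableEq ι] (G C : Matrix ι ι (Quaternion ℝ)) (hG : Gᴴ = -G)
    (hK : (G * C)ᴴ = G * C) (hN : ∀ β : ℝ, β ≠ 0 → NN G C β) (lam : Quaternion ℝ)
    (hre : lam.re = 0) (h0 : lam ≠ 0) :
    IsPositive (G * C) (rootSubspace C lam) ∨ IsNegative (G * C) (rootSubspace C lam) := by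
  have him : lam.im ≠ 0 := by
    intro h; apply h0
    rw [← Quaternion.re_add_im lam, h, hre]; simp
  have hβ : ‖lam‖ ≠ 0 := norm_ne_zero_iff.mpr h0
  have hP : ∀ v, (Polynomial.aeval C (pol lam)) *ᵥ v = Pop C ‖lam‖ v := by
    intro v
    simp only [pol, him, if_false, hre, mul_zero, map_zero, zero_mul, sub_zero, map_add,
      Polynomial.aeval_C, Pop, Matrix.add_mulVec, pow_two,
      Matrix.mulVec_mulVec, Algebra.algebraMap_eq_smul_one, Matrix.smul_mulVec,
      Matrix.one_mulVec, map_mul, Polynomial.aeval_X, smul_mul_smul_comm, mul_one]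
  have hroot : ∀ v ∈ rootSubspace C lam, Pop C ‖lam‖ v = 0 := by
    intro v hv
    rw [← hP]
    apply pow_ker _ _ _ v hv
    intro u hu
    rw [hP, hP] at hu
    rw [hP]
    exact Pop_Pop G C hG hK _ (hN _ hβ) (hN _ (neg_ne_zero.mpr hβ)) u hu
  rcases definite_ker G C hG hK _ hβ (hN _ hβ) with h | h
  · left
    intro v hv hv0
    exact ⟨_, h v (hroot v hv) hv0, fm_real _ hK v⟩
  · right
    intro v hv hv0
    exact ⟨_, h v (hroot v hv) hv0, fm_real _ hK v⟩

end Pool.Agent.Lib.MP_554556_an
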