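import Pool.Agent.Lib.MP_554556_an.Alg

set_option autoImplicit false

namespace Pool.Agent.Lib.MP_554556_an

open Matrix
open scoped Quaternion

variable {n l : ℕ}

/-- The residual `∑ A_k x lam^k`. -/
noncomputable def res (A : Fin (l + 1) → Matrix (Fin n) (Fin n) (Quaternion ℝ))
    (x : Fin n → Quaternion ℝ) (lam : Quaternion ℝ) : Fin n → Quaternion ℝ :=
  ∑ k : Fin (l + 1), A k *ᵥ rm x (lam ^ k.val)

lemma hasDerivAt_sol (x : Fin n → Quaternion ℝ) (lam : Quaternion ℝ) (t : ℝ) :
    HasDerivAt (fun t : ℝ => rm x (NormedSpace.exp (t • lam)))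
      (rm (rm x lam) (NormedSpace.exp (t • lam))) t := by
  rw [hasDerivAt_pi]
  intro i
  have h := (hasDerivAt_exp_smul_const' (𝕂 := ℝ) lam t).const_mul (x i)
  simpa [rm, mul_assoc] using h

lemma iteratedDeriv_sol (lam : Quaternion ℝ) (k : ℕ) : ∀ x : Fin n → Quaternion ℝ,
    iteratedDeriv k (fun t : ℝ => rm x (NormedSpace.exp (t • lam)))
      = fun t : ℝ => rm (rm x (lam ^ k)) (NormedSpace.exp (t • lam)) := by
  induction k with
  | zero =>
    intro x
    funext t i
    simp [rm]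
  | succ k ih =>
    intro x
    rw [iteratedDeriv_succ']
    have h : deriv (fun t : ℝ => rm x (NormedSpace.exp (t • lam)))
        = fun t : ℝ => rm (rm x lam) (NormedSpace.exp (t • lam)) := by
      funext t; exact (hasDerivAt_sol x lam t).deriv
    rw [h, ih, rm_rm x lam, ← pow_succ']

lemma contDiff_sol (lam : Quaternion ℝ) (k : ℕ) : ∀ x : Fin n → Quaternion ℝ,
    ContDiff ℝ (k : ℕ∞) (fun t : ℝ => rm x (NormedSpace.exp (t • lam))) := by
  induction k with
  | zero =>
    intro x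
    have : Differentiable ℝ (fun t : ℝ => rm x (NormedSpace.exp (t • lam))) :=
      fun t => (hasDerivAt_sol x lam t).differentiableAt
    simpa using this.continuous
  | succ k ih =>
    intro x
    have h : deriv (fun t : ℝ => rm x (NormedSpace.exp (t • lam)))
        = fun t : ℝ => rm (rm x lam) (NormedSpace.exp (t • lam)) := by
      funext t; exact (hasDerivAt_sol x lam t).deriv
    have e : (((k + 1 : ℕ) : ℕ∞) : WithTop ℕ∞) = ((k : ℕ∞) : WithTop ℕ∞) + 1 := by
      push_cast; rfl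
    rw [e, contDiff_succ_iff_deriv]
    refine ⟨fun t => (hasDerivAt_sol x lam t).differentiableAt, by simp, ?_⟩
    rw [h]; exact ih _

lemma rm_sum {ι κ : Type} (s : Finset κ) (f : κ → ι → Quaternion ℝ) (q : Quaternion ℝ) :
    rm (∑ k ∈ s, f k) q = ∑ k ∈ s, rm (f k) q := by
  funext i; simp [rm, Finset.sum_apply, Finset.sum_mul]

lemma unbounded (A : Fin (l + 1) → Matrix (Fin n) (Fin n) (Quaternion ℝ))
    (x : Fin n → Quaternion ℝ) (hx : x ≠ 0) (lam : Quaternion ℝ) (hre : lam.re ≠ 0)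
    (h : res A x lam = 0) : ¬ IsBoundedSystem A := by
  intro hB
  obtain ⟨M, hM⟩ := hB (fun t : ℝ => rm x (NormedSpace.exp (t • lam))) ⟨contDiff_sol lam l x, by
    intro t
    simp only [iteratedDeriv_sol]
    simp only [mulVec_rm (q := NormedSpace.exp (t • lam)), ← rm_sum]
    change rm (res A x lam) _ = 0
    rw [h]; funext i; simp [rm]⟩
  obtain ⟨i, hi⟩ : ∃ i, x i ≠ 0 := by
    by_contra hc; push Not at hc; exact hx (funext hc)
  have hpos : 0 < ‖x i‖ := norm_pos_iff.mpr hi
  set s : ℝ := M / ‖x i‖ with hs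
  have h1 := (norm_le_pi_norm _ i).trans (hM (s / lam.re))
  have h2 : ((s / lam.re) • lam).re = s := by
    simp only [Quaternion.re_smul, smul_eq_mul]; field_simp
  simp only [rm, norm_mul, Quaternion.norm_exp, h2, ← Real.exp_eq_exp_ℝ, Real.norm_eq_abs,
    Real.abs_exp] at h1
  have h3 := Real.add_one_le_exp s
  have h4 : ‖x i‖ * s = M := by rw [hs]; field_simp
  nlinarith

/-- Outer product `u w*`. -/
noncomputable def outer (u w : Fin n → Quaternion ℝ) : Matrix (Fin n) (Fin n) (Quaternion ℝ) :=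
  fun i j => u i * star (w j)

lemma outer_mulVec (u w x : Fin n → Quaternion ℝ) :
    outer u w *ᵥ x = rm u (star w ⬝ᵥ x) := by
  funext i; simp [outer, rm, Matrix.mulVec, dotProduct, Finset.mul_sum, mul_assoc]

lemma outer_ct (u w : Fin n → Quaternion ℝ) : (outer u w)ᴴ = outer w u := by
  ext1 i j; simp [outer, Matrix.conjTranspose_apply]

lemma ct_smul (c : ℝ) (M : Matrix (Fin n) (Fin n) (Quaternion ℝ)) : (c • M)ᴴ = c • Mᴴ := by
  ext1 i j; simp [Matrix.conjTranspose_apply]

lemma outer_rm (u w : Fin n → Quaternion ℝ) (q : Quaternion ℝ) :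
    outer u (rm w q) = outer (rm u (star q)) w := by
  ext1 i j; simp [outer, rm, mul_assoc]

lemma dot_rm (u w : Fin n → Quaternion ℝ) (q : Quaternion ℝ) :
    star u ⬝ᵥ rm w q = (star u ⬝ᵥ w) * q := by
  simp [dotProduct, rm, Finset.sum_mul, mul_assoc]

lemma dot_star (u w : Fin n → Quaternion ℝ) : star (star u ⬝ᵥ w) = star w ⬝ᵥ u := by
  simp [dotProduct, star_sum]

lemma dot_self (x : Fin n → Quaternion ℝ) (hx : x ≠ 0) :
    ∃ N : ℝ, 0 < N ∧ star x ⬝ᵥ x = (N : Quaternion ℝ) := by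
  refine ⟨∑ i, Quaternion.normSq (x i), ?_, ?_⟩
  · obtain ⟨i, hi⟩ : ∃ i, x i ≠ 0 := by
      by_contra hc; push Not at hc; exact hx (funext hc)
    apply Finset.sum_pos' (fun j _ => Quaternion.normSq_nonneg) ⟨i, Finset.mem_univ _, ?_⟩
    exact lt_of_le_of_ne Quaternion.normSq_nonneg (Quaternion.normSq_ne_zero.mpr hi).symm
  · simp only [dotProduct, Pi.star_apply, Quaternion.star_mul_self]
    rw [← Quaternion.algebraMap_def, map_sum]

/-- The perturbed eigenvalue `a + β i`. -/
def la (β a : ℝ) : Quaternion ℝ := ⟨a, β, 0, 0⟩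

/-- The purely imaginary correction. -/
noncomputable def qq (β a : ℝ) (F : Quaternion ℝ) : Quaternion ℝ :=
  ⟨0, -F.imI, -((a ^ 2 + 2 * β ^ 2) * F.imJ + a * β * F.imK) / (a ^ 2 + β ^ 2),
    -((a ^ 2 + 2 * β ^ 2) * F.imK - a * β * F.imJ) / (a ^ 2 + β ^ 2)⟩

lemma qq_star (β a : ℝ) (F : Quaternion ℝ) : star (qq β a F) = -qq β a F := by
  ext <;> simp [qq]

lemma qq_real (β a : ℝ) (hβ : β ≠ 0) (F : Quaternion ℝ) :
    star (-(F * la β a - mu β * F) - qq β a F * la β a)
      = -(F * la β a - mu β * F) - qq β a F * la β a := by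
  have h : a ^ 2 + β ^ 2 ≠ 0 := by positivity
  ext
  · simp [qq, la, mu]; ring
  · simp [qq, la, mu]; ring
  · simp [qq, la, mu]; field_simp; ring
  · simp [qq, la, mu]; field_simp; ring

lemma continuous_la (β : ℝ) : Continuous (la β) := by
  have : la β = fun a : ℝ => (a : Quaternion ℝ) + mu β := by
    funext a; ext <;> simp [la, mu]
  rw [this]
  exact Quaternion.continuous_coe.add continuous_const

/-- A quaternion from its coordinates. -/
def mk4 (a b c d : ℝ) : Quaternion ℝ := ⟨a, b, c, d⟩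

lemma continuous_mk {a b c d : ℝ → ℝ} (ha : Continuous a) (hb : Continuous b) (hc : Continuous c)
    (hd : Continuous d) : Continuous fun t => mk4 (a t) (b t) (c t) (d t) := by
  have : (fun t => mk4 (a t) (b t) (c t) (d t)) = fun t =>
      a t • mk4 1 0 0 0 + b t • mk4 0 1 0 0 + c t • mk4 0 0 1 0 + d t • mk4 0 0 0 1 := by
    funext t; ext <;> simp [mk4]
  rw [this]; fun_prop

lemma continuous_qq (β : ℝ) (hβ : β ≠ 0) (F : ℝ → Quaternion ℝ) (hF : Continuous F) :
    Continuous fun a => qq β a (F a) := by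
  have h1 := Quaternion.continuous_imI.comp hF
  have h2 := Quaternion.continuous_imJ.comp hF
  have h3 := Quaternion.continuous_imK.comp hF
  have h : ∀ a : ℝ, a ^ 2 + β ^ 2 ≠ 0 := fun a => by positivity
  refine continuous_mk continuous_const h1.neg ?_ ?_
  · apply Continuous.div _ (by fun_prop) h
    exact (((by fun_prop : Continuous fun a : ℝ => a ^ 2 + 2 * β ^ 2).mul h2).add
      ((by fun_prop : Continuous fun a : ℝ => a * β).mul h3)).neg
  · apply Continuous.div _ (by fun_prop) h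
    exact (((by fun_prop : Continuous fun a : ℝ => a ^ 2 + 2 * β ^ 2).mul h3).sub
      ((by fun_prop : Continuous fun a : ℝ => a * β).mul h2)).neg

lemma qq_zero (β a : ℝ) : qq β a 0 = 0 := by
  ext <;> simp [qq]

lemma perturb (x : Fin n → Quaternion ℝ) (hx : x ≠ 0) (β : ℝ) (hβ : β ≠ 0)
    (r : ℝ → Fin n → Quaternion ℝ) (F : ℝ → Quaternion ℝ) (hr : Continuous r) (hF : Continuous F)
    (r0 : r 0 = 0) (F0 : F 0 = 0)
    (hrel : ∀ a, star x ⬝ᵥ r a = F a * la β a - mu β * F a) (ε : ℝ) (hε : 0 < ε) :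
    ∃ (a : ℝ) (K S : Matrix (Fin n) (Fin n) (Quaternion ℝ)), a ≠ 0 ∧ Kᴴ = K ∧ Sᴴ = -S ∧
      (∀ i j, ‖K i j‖ < ε) ∧ (∀ i j, ‖S i j‖ < ε) ∧
      r a + K *ᵥ x + S *ᵥ rm x (la β a) = 0 := by
  obtain ⟨N, hN, hxx⟩ := dot_self x hx
  let q : ℝ → Quaternion ℝ := fun a => qq β a (F a)
  let y : ℝ → Fin n → Quaternion ℝ := fun a => -r a - N⁻¹ • rm x (q a * la β a)
  let s : ℝ → Quaternion ℝ := fun a => star x ⬝ᵥ y a
  let S : ℝ → Matrix (Fin n) (Fin n) (Quaternion ℝ) := fun a => (N ^ 2)⁻¹ • outer (rm x (q a)) x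
  let K : ℝ → Matrix (Fin n) (Fin n) (Quaternion ℝ) := fun a =>
    N⁻¹ • (outer (y a) x + outer x (y a)) - (N ^ 2)⁻¹ • outer (rm x (s a)) x
  have hq : Continuous q := continuous_qq β hβ F hF
  have hla := continuous_la β
  have hy : Continuous y := by
    apply continuous_pi; intro i
    have : Continuous fun a => r a i := (continuous_apply i).comp hr
    simp only [y, rm, Pi.sub_apply, Pi.neg_apply, Pi.smul_apply]
    fun_prop
  have hyi : ∀ i, Continuous fun a => y a i := fun i => (continuous_apply i).comp hy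
  have hs : Continuous s := by
    simp only [s, dotProduct]
    fun_prop
  have q0 : q 0 = 0 := by simp only [q, F0, qq_zero]
  have y0 : y 0 = 0 := by
    funext i; simp [y, r0, q0, rm]
  have s0 : s 0 = 0 := by simp [s, y0]
  have hsr : ∀ a, star (s a) = s a := by
    intro a
    have : s a = -(F a * la β a - mu β * F a) - qq β a (F a) * la β a := by
      simp only [s, y, dotProduct_sub, dotProduct_neg, hrel, dotProduct_smul, dot_rm, hxx, q]
      rw [Quaternion.coe_mul_eq_smul, smul_smul, inv_mul_cancel₀ hN.ne', one_smul]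
    rw [this]; exact qq_real β a hβ (F a)
  have hSc : ∀ i j, Continuous fun a => S a i j := by
    intro i j
    simp only [S, outer, rm, Matrix.smul_apply]
    fun_prop
  have hKc : ∀ i j, Continuous fun a => K a i j := by
    intro i j
    have h1 := hyi i
    have h2 := hyi j
    simp only [K, outer, rm, Matrix.smul_apply, Matrix.sub_apply, Matrix.add_apply]
    fun_prop
  have S0 : ∀ i j, S 0 i j = 0 := by
    intro i j; simp [S, outer, rm, q0]
  have K0 : ∀ i j, K 0 i j = 0 := by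
    intro i j; simp [K, outer, rm, y0, s0]
  have evS : ∀ᶠ a in nhds (0 : ℝ), ∀ i j, ‖S a i j‖ < ε := by
    simp only [Filter.eventually_all]
    intro i j
    apply ContinuousAt.eventually_lt (hSc i j).norm.continuousAt continuousAt_const
    simpa [S0] using hε
  have evK : ∀ᶠ a in nhds (0 : ℝ), ∀ i j, ‖K a i j‖ < ε := by
    simp only [Filter.eventually_all]
    intro i j
    apply ContinuousAt.eventually_lt (hKc i j).norm.continuousAt continuousAt_const
    simpa [K0] using hε
  have ev : ∀ᶠ a in nhdsWithin (0 : ℝ) {0}ᶜ, (∀ i j, ‖S a i j‖ < ε) ∧ (∀ i j, ‖K a i j‖ < ε) :=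
    (evS.and evK).filter_mono nhdsWithin_le_nhds
  obtain ⟨a, ⟨hSa, hKa⟩, ha⟩ := (ev.and self_mem_nhdsWithin).exists
  refine ⟨a, K a, S a, ha, ?_, ?_, hKa, hSa, ?_⟩
  · simp only [K, Matrix.conjTranspose_sub, ct_smul, Matrix.conjTranspose_add,
      outer_ct, outer_rm, hsr]
    rw [add_comm]
  · simp only [S, ct_smul, outer_ct, outer_rm, q, qq_star, rm_neg]
    ext1 i j; simp [outer]
  · have h1 : star (y a) ⬝ᵥ x = s a := by rw [← dot_star, hsr]
    have h2 : K a *ᵥ x = y a := by
      simp only [K, Matrix.sub_mulVec, Matrix.smul_mulVec, Matrix.add_mulVec, outer_mulVec, hxx,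
        h1, rm_coe, smul_add, smul_smul]
      have e1 : N⁻¹ * N = 1 := inv_mul_cancel₀ hN.ne'
      have e2 : (N ^ 2)⁻¹ * N = N⁻¹ := by field_simp
      rw [e1, e2, one_smul]; abel
    have h3 : S a *ᵥ rm x (la β a) = N⁻¹ • rm x (q a * la β a) := by
      simp only [S, mulVec_rm, Matrix.smul_mulVec, outer_mulVec, hxx, rm_coe, smul_smul, rm_smul,
        rm_rm]
      have e2 : (N ^ 2)⁻¹ * N = N⁻¹ := by field_simp
      rw [e2]
    rw [h2, h3]; simp only [y]; abel

end Pool.Agent.Lib.MP_554556_an
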