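import Pool.Agent.Lib.MP_554556_an.ClDef

set_option autoImplicit false

namespace Pool.Agent.Lib.MP_554556_an

open Matrix Polynomial

section

variable {ι : Type} [Fintype ι] [DecidableEq ι]

lemma ClAnn_lin (B : Matrix ι ι (Quaternion ℝ)) (s : ℝ) (v : ι → Quaternion ℝ) :
    aeval B (X - Polynomial.C s) *ᵥ v = B *ᵥ v - s • v := by
  rw [map_sub, aeval_X, aeval_C, Algebra.algebraMap_eq_smul_one, Matrix.sub_mulVec,
    Matrix.smul_mulVec, Matrix.one_mulVec]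

lemma ClAnn_quad (C : Matrix ι ι (Quaternion ℝ)) (lam : Quaternion ℝ) (h : lam.im ≠ 0)
    (v : ι → Quaternion ℝ) : aeval C (pol lam) *ᵥ v =
      C *ᵥ (C *ᵥ v) - (2 * lam.re) • (C *ᵥ v) + (‖lam‖ ^ 2) • v := by
  rw [pol, if_neg h, map_add, map_sub, map_mul, map_pow, aeval_X, aeval_C, aeval_C,
    Algebra.algebraMap_eq_smul_one, Algebra.algebraMap_eq_smul_one, Matrix.add_mulVec,
    Matrix.sub_mulVec, Matrix.smul_mulVec, Matrix.one_mulVec, smul_mul_assoc, one_mul,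
    Matrix.smul_mulVec, pow_two C, Matrix.mulVec_mulVec]

lemma ClAnn_swap (C : Matrix ι ι (Quaternion ℝ)) (p q : ℝ[X]) (v : ι → Quaternion ℝ) :
    aeval C p *ᵥ (aeval C q *ᵥ v) = aeval C q *ᵥ (aeval C p *ᵥ v) := by
  rw [Matrix.mulVec_mulVec, Matrix.mulVec_mulVec, ← map_mul, ← map_mul, mul_comm]

lemma ClAnn_sq (C : Matrix ι ι (Quaternion ℝ)) (q : ℝ[X]) :
    aeval (C * C) q = aeval C (q.comp (X * X)) := by
  rw [aeval_comp, map_mul, aeval_X]

lemma ClAnn_star (lam : Quaternion ℝ) : pol (star lam) = pol lam := by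
  have e : (star lam).im = 0 ↔ lam.im = 0 := by rw [Quaternion.im_star, neg_eq_zero]
  by_cases h : lam.im = 0
  · rw [pol, pol, if_pos h, if_pos (e.2 h), Quaternion.re_star]
  · rw [pol, pol, if_neg h, if_neg (fun h' => h (e.1 h')), Quaternion.re_star, norm_star]

/-- A nonzero vector killed by `p_lam (C)` gives an eigenvector. -/
lemma ClAnn_eig (C : Matrix ι ι (Quaternion ℝ)) (lam : Quaternion ℝ) (y : ι → Quaternion ℝ)
    (hy : y ≠ 0) (h : aeval C (pol lam) *ᵥ y = 0) :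
    ∃ μ v, pol μ = pol lam ∧ v ≠ 0 ∧ C *ᵥ v = rm v μ ∧ aeval C (pol lam) *ᵥ v = 0 := by
  by_cases him : lam.im = 0
  · refine ⟨lam, y, rfl, hy, ?_, h⟩
    rw [pol, if_pos him, ClAnn_lin, sub_eq_zero, ← rm_coe] at h
    have e : (lam.re : Quaternion ℝ) = lam := by
      have := Quaternion.re_add_im lam
      rwa [him, add_zero] at this
    rwa [e] at h
  by_cases h0 : C *ᵥ y - rm y (star lam) = 0
  · exact ⟨star lam, y, ClAnn_star lam, hy, sub_eq_zero.1 h0, h⟩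
  refine ⟨lam, _, rfl, h0, ?_, ?_⟩
  · rw [ClAnn_quad C lam him, ← rm_coe, ← rm_coe] at h
    have e1 : ((2 * lam.re : ℝ) : Quaternion ℝ) = star lam + lam :=
      (Quaternion.star_add_self' lam).symm
    have e2 : ((‖lam‖ ^ 2 : ℝ) : Quaternion ℝ) = star lam * lam := by
      rw [Quaternion.star_mul_self, Quaternion.normSq_eq_norm_mul_self, pow_two]
    rw [e1, e2] at h
    rw [Matrix.mulVec_sub, mulVec_rm, rm_sub, rm_rm, ← sub_eq_zero, ← h]
    funext i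
    simp only [rm, Pi.sub_apply, Pi.add_apply, mul_add]
    abel
  · have e := ClAnn_swap C (pol lam) X y
    rw [aeval_X] at e
    rw [Matrix.mulVec_sub, mulVec_rm, e, h, Matrix.mulVec_zero]
    funext i
    simp [rm]

lemma ClAnn_root (C : Matrix ι ι (Quaternion ℝ)) (lam : Quaternion ℝ) (v : ι → Quaternion ℝ)
    (h : aeval C (pol lam) *ᵥ v = 0) : v ∈ rootSubspace C lam := by
  show _ *ᵥ v = 0
  rcases hn : Fintype.card ι with _ | n
  · have := Fintype.card_eq_zero_iff.1 hn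
    exact Subsingleton.elim _ _
  · rw [pow_succ, ← Matrix.mulVec_mulVec, h, Matrix.mulVec_zero]

lemma ClAnn_re (g μ : Quaternion ℝ) (r : ℝ) (hg : star g = -g) (hr : r ≠ 0)
    (h : g * μ = (r : Quaternion ℝ)) : μ.re = 0 := by
  have g0 : g.re = 0 := by
    have := congrArg QuaternionAlgebra.re hg
    simp only [Quaternion.re_star, Quaternion.re_neg] at this
    linarith
  have h0 := congrArg QuaternionAlgebra.re h
  have h1 := congrArg QuaternionAlgebra.imI h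
  have h2 := congrArg QuaternionAlgebra.imJ h
  have h3 := congrArg QuaternionAlgebra.imK h
  simp only [Quaternion.re_mul, Quaternion.imI_mul, Quaternion.imJ_mul, Quaternion.imK_mul,
    Quaternion.re_coe, Quaternion.imI_coe, Quaternion.imJ_coe, Quaternion.imK_coe, g0]
    at h0 h1 h2 h3
  refine (mul_eq_zero.1 (?_ : μ.re * r = 0)).resolve_right hr
  linear_combination (-μ.re) * h0 - μ.imI * h1 - μ.imJ * h2 - μ.imK * h3

/-- The numbers `s` that are zero or carry a sign. -/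
def ClAnnGood (G C : Matrix ι ι (Quaternion ℝ)) (s : ℝ) : Prop :=
  s ≠ 0 → ∃ σ : ℝ, ∀ v, v ≠ 0 → (C * C) *ᵥ v = s • v → 0 < σ * (fm (G * C) v v).re

lemma ClAnn_key (G C : Matrix ι ι (Quaternion ℝ)) (hG : Gᴴ = -G)
    (hD : ∀ lam, lam ≠ 0 → IsEigenvalue C lam →
      IsPositive (G * C) (rootSubspace C lam) ∨ IsNegative (G * C) (rootSubspace C lam))
    (lam : Quaternion ℝ) (u : ι → Quaternion ℝ) (hu : u ≠ 0)
    (h : aeval C (pol lam) *ᵥ u = 0) : ∃ s, ClAnnGood G C s ∧ (C * C) *ᵥ u = s • u := by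
  obtain ⟨μ, v, hp, hv0, hv, hv1⟩ := ClAnn_eig C lam u hu h
  rw [← hp] at h hv1
  by_cases hμ : μ = 0
  · refine ⟨0, fun h => absurd rfl h, ?_⟩
    rw [hμ, pol, if_pos Quaternion.im_zero, ClAnn_lin] at h
    simp only [Quaternion.re_zero, zero_smul, sub_zero] at h
    rw [← Matrix.mulVec_mulVec, h, Matrix.mulVec_zero, zero_smul]
  have hd := hD μ hμ ⟨v, hv0, hv⟩
  have hre : μ.re = 0 := by
    have e : star (fm G v v) = -fm G v v := by rw [fm_star, hG, fm_neg]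
    have e2 : fm (G * C) v v = fm G v v * μ := by rw [fm_mul, hv, fm_rm_right]
    rcases hd with hd | hd
    · obtain ⟨r, r0, hr⟩ := hd v (ClAnn_root C μ v hv1) hv0
      exact ClAnn_re _ μ r e r0.ne' (e2.symm.trans hr)
    · obtain ⟨r, r0, hr⟩ := hd v (ClAnn_root C μ v hv1) hv0
      exact ClAnn_re _ μ r e r0.ne (e2.symm.trans hr)
  have him : μ.im ≠ 0 := fun h => hμ (by rw [← Quaternion.re_add_im μ, h, hre]; simp)
  have hP : ∀ w, aeval C (pol μ) *ᵥ w = 0 ↔ (C * C) *ᵥ w = (-‖μ‖ ^ 2) • w := fun w => by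
    rw [ClAnn_quad C μ him, hre, mul_zero, zero_smul, sub_zero, Matrix.mulVec_mulVec, neg_smul,
      add_eq_zero_iff_eq_neg]
  refine ⟨_, fun _ => ?_, (hP u).1 h⟩
  rcases hd with hd | hd
  · refine ⟨1, fun w w0 hw => ?_⟩
    obtain ⟨r, r0, hr⟩ := hd w (ClAnn_root C μ w ((hP w).2 hw)) w0
    rw [fm, hr]
    simpa using r0
  · refine ⟨-1, fun w w0 hw => ?_⟩
    obtain ⟨r, r0, hr⟩ := hd w (ClAnn_root C μ w ((hP w).2 hw)) w0
    rw [fm, hr]
    simpa using r0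

omit [DecidableEq ι] in
lemma ClAnn_semi (G C : Matrix ι ι (Quaternion ℝ)) (hG : Gᴴ = -G) (hK : (G * C)ᴴ = G * C)
    (hJ : ∀ w, C *ᵥ (C *ᵥ w) = 0 → C *ᵥ w = 0) (s : ℝ) (hs : ClAnnGood G C s)
    (w u : ι → Quaternion ℝ) (hw : u = (C * C) *ᵥ w - s • w) (hu : (C * C) *ᵥ u = s • u) :
    u = 0 := by
  by_cases s0 : s = 0
  · rw [s0, zero_smul, ← Matrix.mulVec_mulVec] at hu
    rw [s0, zero_smul, sub_zero, ← Matrix.mulVec_mulVec] at hw
    rw [hw] at hu ⊢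
    exact hJ _ (hJ _ hu)
  obtain ⟨σ, hσ⟩ := hs s0
  by_contra u0
  have h1 := hσ u u0 hu
  have h2 : fm (G * C) u u = 0 := by
    have e1 : fm (G * C) ((C * C) *ᵥ w) u = fm (G * C) w ((C * C) *ᵥ u) := by
      rw [fm_mul, fm_mul, ← Matrix.mulVec_mulVec, ← Matrix.mulVec_mulVec,
        fm_skew G C hG hK w, fm_skew G C hG hK (C *ᵥ w), neg_neg]
    have e2 : (C * C) *ᵥ w = u + rm w (s : Quaternion ℝ) := by rw [rm_coe, hw, sub_add_cancel]
    rw [e2, hu, ← rm_coe, fm_add_left, fm_rm_left, fm_rm_right, Quaternion.star_coe,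
      Quaternion.coe_commutes] at e1
    exact add_eq_right.1 e1
  rw [h2, Quaternion.re_zero, mul_zero] at h1
  exact lt_irrefl _ h1

lemma ClAnn_isRoot (B : Matrix ι ι (Quaternion ℝ)) (χ : ℝ[X]) (h : aeval B χ = 0) (s : ℝ)
    (u : ι → Quaternion ℝ) (u0 : u ≠ 0) (hu : B *ᵥ u = s • u) : χ.IsRoot s := by
  obtain ⟨q, hq⟩ := X_sub_C_dvd_sub_C_eval (p := χ) (a := s)
  have e : aeval B (χ - Polynomial.C (eval s χ)) *ᵥ u
      = aeval B ((X - Polynomial.C s) * q) *ᵥ u := by rw [hq]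
  rw [mul_comm, map_mul, ← Matrix.mulVec_mulVec, ClAnn_lin, hu, sub_self, Matrix.mulVec_zero,
    map_sub, h, aeval_C, Algebra.algebraMap_eq_smul_one, zero_sub, Matrix.neg_mulVec,
    Matrix.smul_mulVec, Matrix.one_mulVec, neg_eq_zero] at e
  exact (smul_eq_zero.1 e).resolve_right u0

lemma ClAnn_factor (f : ℝ[X]) (hf : f.degree ≠ 0) :
    ∃ lam : Quaternion ℝ, pol lam ∣ f ∧ 0 < (pol lam).natDegree := by
  obtain ⟨z, hz⟩ := IsAlgClosed.exists_aeval_eq_zero ℂ f hf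
  refine ⟨(z : Quaternion ℝ), ?_⟩
  have e0 : (z : Quaternion ℝ).im = 0 ↔ z.im = 0 := by
    simp [Quaternion.ext_iff, Quaternion.re_zero, Quaternion.imI_zero, Quaternion.imJ_zero,
      Quaternion.imK_zero]
  have e1 : ‖(z : Quaternion ℝ)‖ = ‖z‖ := by
    rw [← sq_eq_sq₀ (norm_nonneg _) (norm_nonneg _), Complex.sq_norm, pow_two,
      ← Quaternion.normSq_eq_norm_mul_self, Quaternion.normSq_def', Complex.normSq_apply]
    simp [pow_two]
  by_cases him : z.im = 0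
  · rw [pol, if_pos (e0.2 him), natDegree_X_sub_C, dvd_iff_isRoot]
    refine ⟨?_, one_pos⟩
    have e2 : z = algebraMap ℝ ℂ z.re := Complex.ext (by simp) (by simpa using him)
    rw [e2, aeval_algebraMap_apply, map_eq_zero] at hz
    simpa using hz
  · rw [pol, if_neg (fun h => him (e0.1 h)), e1]
    refine ⟨f.quadratic_dvd_of_aeval_eq_zero_im_ne_zero hz him, ?_⟩
    have : (X ^ 2 - Polynomial.C (2 * (z : Quaternion ℝ).re) * X
        + Polynomial.C (‖z‖ ^ 2) : ℝ[X]).natDegree = 2 := by compute_degree!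
    rw [this]
    exact two_pos

end

/-- A squarefree annihilator of `C ^ 2` with a sign on each nonzero eigenspace. -/
theorem annihilator {ι : Type} [Fintype ι] [DecidableEq ι] (G C : Matrix ι ι (Quaternion ℝ))
    (hG : Gᴴ = -G) (hK : (G * C)ᴴ = G * C)
    (hD : ∀ lam, lam ≠ 0 → IsEigenvalue C lam →
      IsPositive (G * C) (rootSubspace C lam) ∨ IsNegative (G * C) (rootSubspace C lam))
    (hJ : ∀ w, C *ᵥ (C *ᵥ w) = 0 → C *ᵥ w = 0) :
    ∃ (S : Finset ℝ) (σ : ℝ → ℝ), aeval (C * C) (∏ s ∈ S, (X - Polynomial.C s)) = 0 ∧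
      ∀ s ∈ S, s ≠ 0 → ∀ v, v ≠ 0 → (C * C) *ᵥ v = s • v →
        0 < σ s * (fm (G * C) v v).re := by
  classical
  have hint : ∀ B : Matrix ι ι (Quaternion ℝ), ∃ χ : ℝ[X], χ ≠ 0 ∧ aeval B χ = 0 := fun B =>
    Algebra.IsAlgebraic.isAlgebraic B
  obtain ⟨χ, χ0, hχ⟩ := hint (C * C)
  obtain ⟨S, hS⟩ : ∃ S : Finset ℝ, ∀ s, s ∈ S ↔ χ.IsRoot s ∧ ClAnnGood G C s :=
    ⟨χ.roots.toFinset.filter (ClAnnGood G C), fun s => by
      rw [Finset.mem_filter, Multiset.mem_toFinset, mem_roots χ0]⟩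
  have hσ : ∀ s, ∃ σ : ℝ, s ∈ S → s ≠ 0 → ∀ v, v ≠ 0 → (C * C) *ᵥ v = s • v →
      0 < σ * (fm (G * C) v v).re := fun s => by
    by_cases h : s ∈ S ∧ s ≠ 0
    · obtain ⟨σ, hσ⟩ := ((hS s).1 h.1).2 h.2
      exact ⟨σ, fun _ _ => hσ⟩
    · exact ⟨0, fun h1 h2 => absurd ⟨h1, h2⟩ h⟩
  choose σ hσ using hσ
  refine ⟨S, σ, ?_, hσ⟩
  have main : ∀ (n : ℕ) (f : ℝ[X]), f ≠ 0 → f.natDegree = n → ∀ v, aeval C f *ᵥ v = 0 →
      aeval (C * C) (∏ s ∈ S, (X - Polynomial.C s)) *ᵥ v = 0 := by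
    intro n
    induction n using Nat.strong_induction_on with
    | _ n ih =>
    intro f f0 hn v hv
    by_cases hd : f.degree = 0
    · rw [eq_C_of_degree_eq_zero hd] at hv f0
      rw [aeval_C, Algebra.algebraMap_eq_smul_one, Matrix.smul_mulVec, Matrix.one_mulVec] at hv
      rw [(smul_eq_zero.1 hv).resolve_left (C_ne_zero.1 f0), Matrix.mulVec_zero]
    obtain ⟨lam, ⟨g, rfl⟩, hp⟩ := ClAnn_factor f hd
    have g0 := right_ne_zero_of_mul f0
    rw [natDegree_mul (left_ne_zero_of_mul f0) g0] at hn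
    rw [map_mul, ← Matrix.mulVec_mulVec, ClAnn_swap] at hv
    have h1 := ih g.natDegree (by omega) g g0 rfl _ hv
    rw [ClAnn_sq, ClAnn_swap, ← ClAnn_sq] at h1
    by_contra u0
    obtain ⟨s, hs, hu⟩ := ClAnn_key G C hG hD lam _ u0 h1
    have hm : s ∈ S := (hS s).2 ⟨ClAnn_isRoot _ χ hχ s _ u0 hu, hs⟩
    refine u0 (ClAnn_semi G C hG hK hJ s hs
      (aeval (C * C) (∏ t ∈ S.erase s, (X - Polynomial.C t)) *ᵥ v) _ ?_ hu)
    rw [← ClAnn_lin, Matrix.mulVec_mulVec, ← map_mul, Finset.mul_prod_erase S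
      (fun t => (X - Polynomial.C t : ℝ[X])) hm]
  obtain ⟨f, f0, hf⟩ := hint C
  refine Matrix.ext_iff_mulVec.2 fun v => ?_
  rw [main _ f f0 rfl v (by rw [hf, Matrix.zero_mulVec]), Matrix.zero_mulVec]

end Pool.Agent.Lib.MP_554556_an
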