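import Pool.Agent.Lib.MP_554556_an.ClDef

set_option autoImplicit false

namespace Pool.Agent.Lib.MP_554556_an

open Matrix Polynomial

lemma clCons_deriv {ι : Type} [Fintype ι] (K : Matrix ι ι (Quaternion ℝ))
    (v : ℝ → ι → Quaternion ℝ) (w : ι → Quaternion ℝ) (t : ℝ)
    (hv : ∀ p, HasDerivAt (fun s => v s p) (w p) t) :
    HasDerivAt (fun s => fm K (v s) (v s)) (fm K w (v t) + fm K (v t) w) t := by
  have : StarModule ℝ (Quaternion ℝ) := ⟨fun r a => by ext <;> simp⟩
  have h := HasDerivAt.fun_sum (u := Finset.univ) fun i _ => (hv i).star.fun_mul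
    (HasDerivAt.fun_sum (u := Finset.univ) fun j _ => (hv j).const_mul (K i j))
  rw [Finset.sum_add_distrib] at h
  exact h

lemma clCons_const {ι : Type} [Fintype ι] (G C R : Matrix ι ι (Quaternion ℝ)) (hG : Gᴴ = -G)
    (hK : (G * C)ᴴ = G * C) (hR : R * C = C * R) (v : ℝ → ι → Quaternion ℝ)
    (hv : ∀ t p, HasDerivAt (fun s => v s p) ((C *ᵥ v t) p) t) (t : ℝ) :
    fm (G * R) (v t) (v t) = fm (G * R) (v 0) (v 0) := by
  have h : ∀ t, HasDerivAt (fun s => fm (G * R) (v s) (v s)) 0 t := fun t => by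
    have h1 := clCons_deriv (G * R) v _ t (hv t)
    rwa [fm_mul, fm_mul, Matrix.mulVec_mulVec, hR, ← Matrix.mulVec_mulVec, fm_skew G C hG hK,
      add_neg_cancel] at h1
  exact is_const_of_deriv_eq_zero (fun s => (h s).differentiableAt) (fun s => (h s).deriv) t 0

lemma clCons_ode {n m : ℕ} (A : Fin (m + 1 + 1) → Matrix (Fin n) (Fin n) (Quaternion ℝ))
    (hU : IsUnit (A (Fin.last (m + 1)))) (x : ℝ → Fin n → Quaternion ℝ) (hx : IsSolution A x)
    (t : ℝ) (p : Fin (m + 1) × Fin n) :
    HasDerivAt (fun s => iteratedDeriv p.1.val x s p.2)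
      ((companion A *ᵥ fun r => iteratedDeriv r.1.val x t r.2) p) t := by
  have h1 : HasDerivAt (iteratedDeriv p.1.val x) (iteratedDeriv (p.1.val + 1) x t) t := by
    rw [iteratedDeriv_succ]
    exact (hx.1.differentiable_iteratedDeriv p.1.val (by exact_mod_cast p.1.isLt) t).hasDerivAt
  have h2 := hasDerivAt_pi.1 h1 p.2
  have e : (companion A *ᵥ fun r => iteratedDeriv r.1.val x t r.2) p =
      iteratedDeriv (p.1.val + 1) x t p.2 := by
    rw [companion_eq, Matrix.add_mulVec, L_mulVec, Pi.add_apply, U_mulVec]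
    by_cases h : p.1 = Fin.last m
    · have h3 : ¬ p.1.val + 1 < m + 1 := by rw [h]; simp
      have h4 := hx.2 t
      rw [Fin.sum_univ_castSucc] at h4
      have h5 := congrArg (fun z => Ring.inverse (A (Fin.last (m + 1))) *ᵥ z) h4
      simp only [Matrix.mulVec_add, Matrix.mulVec_mulVec, Ring.inverse_mul_cancel _ hU,
        Matrix.one_mulVec, Matrix.mulVec_zero, Fin.val_last, Fin.val_castSucc] at h5
      rw [dif_neg h3, zero_add, eL, if_pos h, h, Fin.val_last, eq_neg_of_add_eq_zero_right h5]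
    · have h3 : p.1.val + 1 < m + 1 := by
        have := Fin.val_lt_last h
        omega
      rw [dif_pos h3, eL, if_neg h, add_zero]
  rw [e]
  exact h2

/-- A coercive conserved quantity bounds every solution. -/
theorem bounded_of_phi {n m : ℕ}
    (A : Fin (m + 1 + 1) → Matrix (Fin n) (Fin n) (Quaternion ℝ)) (hA : Symm A)
    (hU : IsUnit (A (Fin.last (m + 1)))) (q : ℝ[X]) (c : ℝ) (hc : 0 < c)
    (h : ∀ v, c * ‖v‖ ^ 2 ≤ Phi (Gmat A) (companion A) q v) : IsBoundedSystem A := by
  intro x hx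
  set v : ℝ → Fin (m + 1) × Fin n → Quaternion ℝ := fun t r => iteratedDeriv r.1.val x t r.2
    with hv
  have hG := Gmat_skew A hA
  have hK := GC_herm A hA hU
  have hq : aeval (companion A * companion A) q * companion A =
      companion A * aeval (companion A * companion A) q := by
    have h1 : aeval (companion A * companion A) q = aeval (companion A) (q.comp (X * X)) := by
      rw [aeval_comp, map_mul, aeval_X]
    have h2 := congrArg (aeval (companion A)) (mul_comm (q.comp (X * X)) X)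
    rwa [map_mul, map_mul, aeval_X, ← h1] at h2
  have h1 := clCons_const _ _ 1 hG hK (by rw [one_mul, mul_one]) v (clCons_ode A hU x hx)
  have h2 := clCons_const _ _ (companion A * aeval (companion A * companion A) q) hG hK
    (by rw [mul_assoc, hq]) v (clCons_ode A hU x hx)
  simp only [mul_one, ← mul_assoc] at h1 h2
  refine ⟨√(Phi (Gmat A) (companion A) q (v 0) / c), fun t => ?_⟩
  have h3 : Phi (Gmat A) (companion A) q (v t) = Phi (Gmat A) (companion A) q (v 0) := by
    rw [Phi, Phi, h1 t, h2 t]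
  have h4 : ‖x t‖ ≤ ‖v t‖ := by
    refine (pi_norm_le_iff_of_nonneg (norm_nonneg _)).2 fun i => ?_
    exact norm_le_pi_norm (v t) (0, i)
  refine h4.trans (Real.le_sqrt_of_sq_le ?_)
  rw [le_div_iff₀ hc, mul_comm, ← h3]
  exact h (v t)

end Pool.Agent.Lib.MP_554556_an
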