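import Pool.Agent.Lib.MP_554556_an.Comp

set_option autoImplicit false

namespace Pool.Agent.Lib.MP_554556_an

open Matrix Polynomial

/-- The conserved quantity attached to a real polynomial `q`. -/
noncomputable def Phi {ι : Type} [Fintype ι] [DecidableEq ι] (G C : Matrix ι ι (Quaternion ℝ))
    (q : ℝ[X]) (v : ι → Quaternion ℝ) : ℝ :=
  ‖fm G v v‖ + (fm (G * C * aeval (C * C) q) v v).re

end Pool.Agent.Lib.MP_554556_an
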