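import Pool.Agent.Lib.MP_554556_an.ClDef

set_option autoImplicit false

namespace Pool.Agent.Lib.MP_554556_an

open Matrix Polynomial

lemma clLine_scale (p q r : Quaternion ℝ) (s : ℝ) (hs : 0 < s)
    (h : star r * q * r = -(s • p)) : ∃ a : Quaternion ℝ, star a * q * a = -p := by
  refine ⟨(Real.sqrt s)⁻¹ • r, ?_⟩
  have h1 : (Real.sqrt s)⁻¹ * (Real.sqrt s)⁻¹ * s = 1 := by
    rw [← mul_inv, Real.mul_self_sqrt hs.le, inv_mul_cancel₀ hs.ne']
  rw [Quaternion.star_smul, smul_mul_assoc, smul_mul_assoc, mul_smul_comm, h, smul_smul,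
    smul_neg, smul_smul, h1, one_smul]

lemma clLine_sq (p : Quaternion ℝ) (hp : star p = -p) :
    p * p = -((‖p‖ * ‖p‖ : ℝ) • (1 : Quaternion ℝ)) := by
  have h := Quaternion.star_mul_self p
  rw [hp, neg_mul, Quaternion.normSq_eq_norm_mul_self] at h
  rw [← Quaternion.coe_mul_eq_smul, mul_one, ← h, neg_neg]

lemma clLine_star (r x : Quaternion ℝ) : star r * (r * x) = (‖r‖ * ‖r‖ : ℝ) • x := by
  rw [← mul_assoc, Quaternion.star_mul_self, Quaternion.normSq_eq_norm_mul_self,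
    Quaternion.coe_mul_eq_smul]

lemma clLine_anti (q : Quaternion ℝ) (hq : star q = -q) :
    ∃ r : Quaternion ℝ, r ≠ 0 ∧ q * r = -(r * q) := by
  have h0 : q.re = 0 := Quaternion.star_eq_neg.mp hq
  by_cases h : q.imI = 0
  · refine ⟨mu 1, mu_ne_zero 1 one_ne_zero, ?_⟩
    ext <;> simp [mu, h0, h]
  · refine ⟨⟨0, q.imJ, -q.imI, 0⟩, fun e => h ?_, ?_⟩
    · exact neg_eq_zero.1 (congrArg QuaternionAlgebra.imJ e)
    · ext <;> simp [h0] <;> ring

/-- Two nonzero pure quaternions are opposite up to a congruence. -/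
theorem pure_congr (p q : Quaternion ℝ) (hp : star p = -p) (hq : star q = -q) (hq0 : q ≠ 0) :
    ∃ a : Quaternion ℝ, star a * q * a = -p := by
  by_cases hp0 : p = 0
  · exact ⟨0, by simp [hp0]⟩
  have hP : 0 < ‖p‖ := norm_pos_iff.2 hp0
  have hQ : 0 < ‖q‖ := norm_pos_iff.2 hq0
  by_cases hr : ‖p‖ • q - ‖q‖ • p = 0
  · obtain ⟨r, hr0, h⟩ := clLine_anti q hq
    have hR : 0 < ‖r‖ := norm_pos_iff.2 hr0
    have h1 : q = (‖p‖⁻¹ * ‖q‖) • p := by
      rw [mul_smul, ← sub_eq_zero.1 hr, smul_smul, inv_mul_cancel₀ hP.ne', one_smul]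
    refine clLine_scale p q r (‖r‖ * ‖r‖ * (‖p‖⁻¹ * ‖q‖)) (by positivity) ?_
    rw [mul_assoc, h, mul_neg, clLine_star, mul_smul (‖r‖ * ‖r‖), ← h1]
  · have h1 : ‖p‖ • (q * (‖p‖ • q - ‖q‖ • p)) = -(‖q‖ • ((‖p‖ • q - ‖q‖ • p) * p)) := by
      rw [mul_sub, sub_mul, mul_smul_comm, mul_smul_comm, smul_mul_assoc, smul_mul_assoc,
        clLine_sq p hp, clLine_sq q hq]
      module
    have hR : 0 < ‖‖p‖ • q - ‖q‖ • p‖ := norm_pos_iff.2 hr
    generalize ‖p‖ • q - ‖q‖ • p = r at h1 hR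
    have h2 : q * r = -((‖p‖⁻¹ * ‖q‖) • (r * p)) := by
      rw [mul_smul, ← smul_neg, ← h1, smul_smul, inv_mul_cancel₀ hP.ne', one_smul]
    refine clLine_scale p q r (‖p‖⁻¹ * ‖q‖ * (‖r‖ * ‖r‖)) (by positivity) ?_
    rw [mul_assoc, h2, mul_neg, mul_smul_comm, clLine_star, smul_smul]

lemma clLine_root {ι : Type} [Fintype ι] [DecidableEq ι] (C : Matrix ι ι (Quaternion ℝ))
    (v : ι → Quaternion ℝ) : v ∈ rootSubspace C 0 ↔ C ^ Fintype.card ι *ᵥ v = 0 := by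
  have h : pol 0 = X := by
    rw [pol, if_pos (by ext <;> rfl), Quaternion.re_zero, map_zero, sub_zero]
  simp [rootSubspace, h]

lemma clLine_mem {ι : Type} [Fintype ι] [DecidableEq ι] (C : Matrix ι ι (Quaternion ℝ))
    (v : ι → Quaternion ℝ) (k : ℕ) (hk : k ≤ Fintype.card ι) (h : C ^ k *ᵥ v = 0) :
    v ∈ rootSubspace C 0 := by
  obtain ⟨j, hj⟩ := Nat.exists_eq_add_of_le' hk
  rw [clLine_root, hj, pow_add, ← Matrix.mulVec_mulVec, h, Matrix.mulVec_zero]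

lemma clLine_rm_zero {ι : Type} (v : ι → Quaternion ℝ) : rm v 0 = 0 := by
  funext i; simp [rm]

/-- Without neutral vectors in the kernel the root subspace at zero is contained in a line. -/
theorem line_of_neutral {ι : Type} [Fintype ι] [DecidableEq ι] (G C : Matrix ι ι (Quaternion ℝ))
    (hG : Gᴴ = -G) (hK : (G * C)ᴴ = G * C) (hN : ∀ v, C *ᵥ v = 0 → fm G v v = 0 → v = 0) :
    ∃ e : ι → Quaternion ℝ, ∀ v ∈ rootSubspace C 0, ∃ a, v = fun i => e i * a := by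
  have hJ : ∀ w, C *ᵥ (C *ᵥ w) = 0 → C *ᵥ w = 0 := fun w hw =>
    hN _ hw (by rw [fm_skew G C hG hK, hw]; simp [fm])
  have hker : ∀ v ∈ rootSubspace C 0, C *ᵥ v = 0 := fun v hv =>
    pow_ker C hJ _ v ((clLine_root C v).1 hv)
  have hst : ∀ u w, star (fm G u w) = -fm G w u := fun u w => by rw [fm_star, hG, fm_neg]
  by_cases h0 : ∀ v, C *ᵥ v = 0 → v = 0
  · exact ⟨0, fun v hv => ⟨0, by rw [h0 v (hker v hv)]; funext i; simp⟩⟩
  push Not at h0
  obtain ⟨e, he, he0⟩ := h0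
  have hp : fm G e e ≠ 0 := fun h => he0 (hN e he h)
  refine ⟨e, fun v hv => ⟨(fm G e e)⁻¹ * fm G e v, ?_⟩⟩
  have hv0 := hker v hv
  obtain ⟨w, hw⟩ : ∃ w, w = v - rm e ((fm G e e)⁻¹ * fm G e v) := ⟨_, rfl⟩
  have w1 : C *ᵥ w = 0 := by
    rw [hw, Matrix.mulVec_sub, mulVec_rm, hv0, he]
    funext i; simp [rm]
  have w2 : fm G e w = 0 := by
    rw [hw, fm_sub_right, fm_rm_right, mul_inv_cancel_left₀ hp, sub_self]
  have w3 : fm G w e = 0 := by
    have := hst e w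
    rw [w2, star_zero] at this
    exact neg_eq_zero.1 this.symm
  have w0 : w = 0 := by
    by_contra hw0
    obtain ⟨a, ha⟩ := pure_congr (fm G e e) (fm G w w) (hst e e) (hst w w)
      fun h => hw0 (hN w w1 h)
    have u0 : e + rm w a = 0 := by
      apply hN
      · rw [Matrix.mulVec_add, mulVec_rm, he, w1]
        funext i; simp [rm]
      · rw [fm_add_left, fm_add_right, fm_add_right, fm_rm_right, fm_rm_left, fm_rm_left,
          fm_rm_right, w2, w3, ← mul_assoc, ha]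
        simp
    have u1 : fm G e (e + rm w a) = 0 := by rw [u0]; simp [fm]
    rw [fm_add_right, fm_rm_right, w2, zero_mul, add_zero] at u1
    exact hp u1
  rw [w0] at hw
  exact sub_eq_zero.1 hw.symm

/-- If the root subspace at zero is contained in a line there is no Jordan chain at zero. -/
theorem jordan_of_line {ι : Type} [Fintype ι] [DecidableEq ι] (C : Matrix ι ι (Quaternion ℝ))
    (h : ∃ e : ι → Quaternion ℝ, ∀ v ∈ rootSubspace C 0, ∃ a, v = fun i => e i * a) :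
    (∀ w, C *ᵥ (C *ᵥ w) = 0 → C *ᵥ w = 0) ∧
      ∃ e : ι → Quaternion ℝ, C *ᵥ e = 0 ∧ ∀ v, C *ᵥ v = 0 → ∃ a, v = rm e a := by
  obtain ⟨e, he⟩ := h
  have he' : ∀ v ∈ rootSubspace C 0, ∃ a, v = rm e a := he
  have hline : ∀ u ∈ rootSubspace C 0, u ≠ 0 → ∀ v ∈ rootSubspace C 0, ∃ a, v = rm u a := by
    intro u hu hu0 v hv
    obtain ⟨a, rfl⟩ := he' u hu
    obtain ⟨b, rfl⟩ := he' v hv
    have ha : a ≠ 0 := fun h => hu0 (by rw [h, clLine_rm_zero])
    exact ⟨a⁻¹ * b, by rw [rm_rm, mul_inv_cancel_left₀ ha]⟩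
  have hk : ∀ v, C *ᵥ v = 0 → v ∈ rootSubspace C 0 := fun v hv => by
    by_cases h0 : v = 0
    · exact clLine_mem C v 0 (Nat.zero_le _) (by rw [h0, Matrix.mulVec_zero])
    · obtain ⟨i, -⟩ := Function.ne_iff.1 h0
      exact clLine_mem C v 1 (Fintype.card_pos_iff.2 ⟨i⟩) (by rwa [pow_one])
  constructor
  · intro w hw
    by_cases w0 : w = 0
    · rw [w0, Matrix.mulVec_zero]
    have hc : ∃ c, C *ᵥ w = rm w c := by
      by_cases h2 : 2 ≤ Fintype.card ι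
      · exact hline w (clLine_mem C w 2 h2 (by rwa [pow_two, ← Matrix.mulVec_mulVec])) w0 _
          (hk _ hw)
      · obtain ⟨i, hi⟩ := Function.ne_iff.1 w0
        have hs := Fintype.card_le_one_iff.1 (show Fintype.card ι ≤ 1 by omega)
        refine ⟨(w i)⁻¹ * (C *ᵥ w) i, funext fun j => ?_⟩
        rw [hs j i, rm, mul_inv_cancel_left₀ hi]
    obtain ⟨c, hc⟩ := hc
    by_cases c0 : c = 0
    · rw [hc, c0, clLine_rm_zero]
    · rw [hc, mulVec_rm] at hw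
      exact rm_eq_zero _ c c0 hw
  · by_cases h0 : ∀ v, C *ᵥ v = 0 → v = 0
    · exact ⟨0, Matrix.mulVec_zero C, fun v hv => ⟨0, by rw [h0 v hv, clLine_rm_zero]⟩⟩
    · push Not at h0
      obtain ⟨u, hu, hu0⟩ := h0
      exact ⟨u, hu, fun v hv => hline u (hk u hu) hu0 v (hk v hv)⟩

end Pool.Agent.Lib.MP_554556_an
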