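import Pool.Agent.Lib.MP_554556_an.ClDef

set_option autoImplicit false

namespace Pool.Agent.Lib.MP_554556_an

open Matrix Polynomial

theorem clOpen_inv {n : ℕ} {U : Matrix (Fin n) (Fin n) (Quaternion ℝ)} (hU : IsUnit U) :
    ContinuousAt Ring.inverse U ∧ ∀ᶠ M in nhds U, IsUnit M := by
  let : NormedRing (Matrix (Fin n) (Fin n) (Quaternion ℝ)) := Matrix.linftyOpNormedRing
  have : @CompleteSpace (Matrix (Fin n) (Fin n) (Quaternion ℝ)) PseudoMetricSpace.toUniformSpace :=
    inferInstanceAs (CompleteSpace (Fin n → Fin n → Quaternion ℝ))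
  obtain ⟨u, rfl⟩ := hU
  exact ⟨NormedRing.inverse_continuousAt u, Units.isOpen.mem_nhds u.isUnit⟩

theorem clOpen_phi {ι X : Type} [Fintype ι] [DecidableEq ι] [TopologicalSpace X] (q : ℝ[X])
    {G C : X → Matrix ι ι (Quaternion ℝ)} {v : X → ι → Quaternion ℝ} {x : X}
    (hG : ContinuousAt G x) (hC : ContinuousAt C x) (hv : ContinuousAt v x) :
    ContinuousAt (fun y => Phi (G y) (C y) q (v y)) x := by
  have f : Continuous fun p : Matrix ι ι (Quaternion ℝ) × (ι → Quaternion ℝ) => fm p.1 p.2 p.2 :=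
    continuous_snd.star.dotProduct (continuous_fst.matrix_mulVec continuous_snd)
  have f' : ∀ K : X → Matrix ι ι (Quaternion ℝ), ContinuousAt K x →
      ContinuousAt (fun y => fm (K y) (v y) (v y)) x := fun K hK =>
    ContinuousAt.comp (f := fun y => (K y, v y)) f.continuousAt (hK.prodMk hv)
  have a : ContinuousAt (fun y => aeval (C y * C y) q) x :=
    ContinuousAt.comp (f := fun y => C y * C y) q.continuous_aeval.continuousAt (hC.mul hC)
  have b := f' (fun y => G y * C y * aeval (C y * C y) q) ((hG.mul hC).mul a)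
  have c : ContinuousAt
      (fun y => (fm (G y * C y * aeval (C y * C y) q) (v y) (v y)).re) x :=
    ContinuousAt.comp (f := fun y => fm (G y * C y * aeval (C y * C y) q) (v y) (v y))
      Quaternion.continuous_re.continuousAt b
  exact (f' G hG).norm.add c

theorem clOpen_G {n l : ℕ} :
    Continuous fun A : Fin (l + 1) → Matrix (Fin n) (Fin n) (Quaternion ℝ) => Gmat A := by
  refine continuous_matrix fun p r => ?_
  unfold Gmat
  split_ifs with h
  · exact continuous_const.mul ((continuous_apply _).matrix_elem _ _)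
  · exact continuous_const

theorem clOpen_C {n l : ℕ} {A : Fin (l + 1) → Matrix (Fin n) (Fin n) (Quaternion ℝ)}
    (hU : IsUnit (A (Fin.last l))) : ContinuousAt companion A := by
  refine continuousAt_pi.2 fun p => continuousAt_pi.2 fun r => ?_
  unfold companion
  split_ifs with h h'
  · have h1 : ContinuousAt (fun B : Fin (l + 1) → Matrix (Fin n) (Fin n) (Quaternion ℝ) =>
        -(Ring.inverse (B (Fin.last l)) * B r.1.castSucc)) A :=
      ((ContinuousAt.comp (f := fun B : Fin (l + 1) → Matrix (Fin n) (Fin n) (Quaternion ℝ) =>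
        B (Fin.last l)) (clOpen_inv hU).1 (continuous_apply _).continuousAt).mul
        (continuous_apply _).continuousAt).neg
    exact continuousAt_pi.1 (continuousAt_pi.1 h1 p.2) r.2
  · exact continuousAt_const
  · exact continuousAt_const

theorem clOpen_smul {ι : Type} [Fintype ι] [DecidableEq ι] (G C : Matrix ι ι (Quaternion ℝ))
    (q : ℝ[X]) (v : ι → Quaternion ℝ) (t : ℝ) : Phi G C q (t • v) = t ^ 2 * Phi G C q v := by
  have e : fm G (t • v) (t • v) = t ^ 2 • fm G v v := by
    have s : star (t • v) = t • star v := funext fun i => by simp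
    simp [fm, s, mulVec_smul, smul_smul, sq]
  rw [Phi, Phi, fm_smul_smul, e, norm_smul, Real.norm_of_nonneg (sq_nonneg t), mul_add]

/-- Positivity of the conserved quantity is an open condition. -/
theorem phi_open {n l : ℕ} (A : Fin (l + 1) → Matrix (Fin n) (Fin n) (Quaternion ℝ))
    (hU : IsUnit (A (Fin.last l))) (q : ℝ[X])
    (h : ∀ v, v ≠ 0 → 0 < Phi (Gmat A) (companion A) q v) :
    ∃ ε : ℝ, 0 < ε ∧ ∀ A' : Fin (l + 1) → Matrix (Fin n) (Fin n) (Quaternion ℝ),
      (∀ k i j, ‖A' k i j - A k i j‖ < ε) → IsUnit (A' (Fin.last l)) ∧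
        ∃ c : ℝ, 0 < c ∧ ∀ v, c * ‖v‖ ^ 2 ≤ Phi (Gmat A') (companion A') q v := by
  have : ProperSpace (Quaternion ℝ) := FiniteDimensional.proper ℝ _
  have hK := isCompact_sphere (0 : Fin l × Fin n → Quaternion ℝ) 1
  obtain ⟨c, hc, hle⟩ := hK.exists_forall_le' (f := fun v => Phi (Gmat A) (companion A) q v)
    (fun v _ => (clOpen_phi q continuousAt_const continuousAt_const
      continuousAt_id).continuousWithinAt) (a := 0) fun v hv => h v fun e => by simp [e] at hv
  have e1 : ∀ᶠ A' in nhds A, ∀ v ∈ Metric.sphere (0 : Fin l × Fin n → Quaternion ℝ) 1,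
      c / 2 < Phi (Gmat A') (companion A') q v :=
    hK.eventually_forall_of_forall_eventually fun v hv =>
      (clOpen_phi q (clOpen_G.comp continuous_fst).continuousAt
        (ContinuousAt.comp (x := (A, v)) (clOpen_C hU) continuousAt_fst)
        continuousAt_snd).eventually (lt_mem_nhds ((half_lt_self hc).trans_le (hle v hv)))
  have e2 : ∀ᶠ A' in nhds A, IsUnit (A' (Fin.last l)) :=
    (continuous_apply (Fin.last l)).continuousAt.eventually (clOpen_inv hU).2
  obtain ⟨ε, hε, H⟩ := (Metric.eventually_nhds_iff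
    (α := Fin (l + 1) → Fin n → Fin n → Quaternion ℝ)).1 (e2.and e1)
  refine ⟨ε, hε, fun A' hA => ?_⟩
  obtain ⟨h1, h2⟩ := H (y := A') ((dist_pi_lt_iff
    (X := fun _ : Fin (l + 1) => Fin n → Fin n → Quaternion ℝ) hε).2 fun k =>
      (dist_pi_lt_iff (X := fun _ : Fin n => Fin n → Quaternion ℝ) hε).2 fun i =>
        (dist_pi_lt_iff hε).2 fun j => by rw [dist_eq_norm]; exact hA k i j)
  refine ⟨h1, c / 2, half_pos hc, fun v => ?_⟩
  rcases eq_or_ne v 0 with rfl | hv
  · have h4 := clOpen_smul (Gmat A') (companion A') q 0 0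
    rw [smul_zero] at h4
    rw [h4]
    simp
  · have p : 0 < ‖v‖ := norm_pos_iff.2 hv
    have h3 := h2 (‖v‖⁻¹ • v) (by simp [norm_smul, p.ne'])
    have h4 := clOpen_smul (Gmat A') (companion A') q (‖v‖⁻¹ • v) ‖v‖
    rw [smul_inv_smul₀ p.ne'] at h4
    rw [h4, mul_comm]
    exact mul_le_mul_of_nonneg_left h3.le (sq_nonneg _)

end Pool.Agent.Lib.MP_554556_an
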