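import Pool.Agent.Lib.MP_554556_an.ClDef

set_option autoImplicit false

namespace Pool.Agent.Lib.MP_554556_an

open Matrix Polynomial

lemma ClPos_sum_right {ι κ : Type} [Fintype ι] (K : Matrix ι ι (Quaternion ℝ))
    (u : ι → Quaternion ℝ) (T : Finset κ) (w : κ → ι → Quaternion ℝ) :
    fm K u (∑ t ∈ T, w t) = ∑ t ∈ T, fm K u (w t) := by
  classical
  induction T using Finset.induction_on with
  | empty => simp [fm]
  | insert a T ha ih => rw [Finset.sum_insert ha, Finset.sum_insert ha, fm_add_right, ih]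

lemma ClPos_sum_left {ι κ : Type} [Fintype ι] (K : Matrix ι ι (Quaternion ℝ))
    (u : ι → Quaternion ℝ) (T : Finset κ) (w : κ → ι → Quaternion ℝ) :
    fm K (∑ t ∈ T, w t) u = ∑ t ∈ T, fm K (w t) u := by
  classical
  induction T using Finset.induction_on with
  | empty => simp [fm]
  | insert a T ha ih => rw [Finset.sum_insert ha, Finset.sum_insert ha, fm_add_left, ih]

lemma ClPos_smul_right {ι : Type} [Fintype ι] (K : Matrix ι ι (Quaternion ℝ))
    (u w : ι → Quaternion ℝ) (c : ℝ) : fm K u (c • w) = c • fm K u w := by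
  rw [← rm_coe, fm_rm_right, Quaternion.mul_coe_eq_smul]

lemma ClPos_smul_left {ι : Type} [Fintype ι] (K : Matrix ι ι (Quaternion ℝ))
    (u w : ι → Quaternion ℝ) (c : ℝ) : fm K (c • u) w = c • fm K u w := by
  rw [← rm_coe, fm_rm_left, Quaternion.star_coe, Quaternion.coe_mul_eq_smul]

lemma ClPos_zero_right {ι : Type} [Fintype ι] (K : Matrix ι ι (Quaternion ℝ))
    (u : ι → Quaternion ℝ) : fm K u 0 = 0 := by simp [fm]

lemma ClPos_zero_left {ι : Type} [Fintype ι] (K : Matrix ι ι (Quaternion ℝ))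
    (u : ι → Quaternion ℝ) : fm K 0 u = 0 := by simp [fm]

lemma ClPos_orth {ι : Type} [Fintype ι] (G C : Matrix ι ι (Quaternion ℝ))
    (hG : Gᴴ = -G) (hK : (G * C)ᴴ = G * C) (s t : ℝ) (hst : s ≠ t) (u w : ι → Quaternion ℝ)
    (hu : (C * C) *ᵥ u = s • u) (hw : (C * C) *ᵥ w = t • w) : fm (G * C) u w = 0 := by
  have h1 : fm (G * C) u ((C * C) *ᵥ w) = fm (G * C) ((C * C) *ᵥ u) w := by
    rw [← Matrix.mulVec_mulVec, ← Matrix.mulVec_mulVec, fm_mul, fm_mul,
      fm_skew G C hG hK u, fm_skew G C hG hK (C *ᵥ u), neg_neg]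
  rw [hu, hw, ClPos_smul_right, ClPos_smul_left] at h1
  have h2 : (t - s) • fm (G * C) u w = 0 := by rw [sub_smul, h1, sub_self]
  rcases smul_eq_zero.mp h2 with h3 | h3
  · exact absurd (by linarith) hst
  · exact h3

lemma ClPos_basis (S : Finset ℝ) (s : ℝ) (hs : s ∈ S) :
    (X - Polynomial.C s) * Lagrange.basis S id s =
      Polynomial.C (∏ t ∈ S.erase s, (s - t)⁻¹) * ∏ t ∈ S, (X - Polynomial.C t) := by
  rw [← Finset.mul_prod_erase S (fun t => X - Polynomial.C t) hs]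
  simp only [Lagrange.basis, Lagrange.basisDivisor, id, Finset.prod_mul_distrib, map_prod]
  ring

lemma ClPos_eig {ι : Type} [Fintype ι] [DecidableEq ι] (M : Matrix ι ι (Quaternion ℝ))
    (S : Finset ℝ) (hS : aeval M (∏ s ∈ S, (X - Polynomial.C s)) = 0) (s : ℝ) (hs : s ∈ S)
    (v : ι → Quaternion ℝ) :
    M *ᵥ (aeval M (Lagrange.basis S id s) *ᵥ v) = s • (aeval M (Lagrange.basis S id s) *ᵥ v) := by
  have h1 : aeval M ((X - Polynomial.C s) * Lagrange.basis S id s) = 0 := by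
    rw [ClPos_basis S s hs, map_mul, hS, mul_zero]
  rw [map_mul, map_sub, aeval_X, aeval_C, Algebra.algebraMap_eq_smul_one, sub_mul,
    smul_mul_assoc, one_mul, sub_eq_zero] at h1
  rw [Matrix.mulVec_mulVec, h1, Matrix.smul_mulVec]

lemma ClPos_total {ι : Type} [Fintype ι] [DecidableEq ι] (M : Matrix ι ι (Quaternion ℝ))
    (S : Finset ℝ) (hS : aeval M (∏ s ∈ S, (X - Polynomial.C s)) = 0) (v : ι → Quaternion ℝ) :
    ∑ s ∈ S, aeval M (Lagrange.basis S id s) *ᵥ v = v := by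
  rcases S.eq_empty_or_nonempty with h | h
  · subst h
    rw [Finset.prod_empty, map_one] at hS
    rw [Finset.sum_empty, ← Matrix.one_mulVec v, hS, Matrix.zero_mulVec]
  · rw [← Matrix.sum_mulVec, ← map_sum, Lagrange.sum_basis (Set.injOn_id _) h, map_one,
      Matrix.one_mulVec]

/-- A positive conserved quantity. -/
theorem phi_pos {ι : Type} [Fintype ι] [DecidableEq ι] (G C : Matrix ι ι (Quaternion ℝ))
    (hG : Gᴴ = -G) (hK : (G * C)ᴴ = G * C) (S : Finset ℝ) (σ : ℝ → ℝ)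
    (hS : aeval (C * C) (∏ s ∈ S, (X - Polynomial.C s)) = 0)
    (hσ : ∀ s ∈ S, s ≠ 0 → ∀ v, v ≠ 0 → (C * C) *ᵥ v = s • v → 0 < σ s * (fm (G * C) v v).re)
    (hJ : ∀ w, C *ᵥ (C *ᵥ w) = 0 → C *ᵥ w = 0) (e : ι → Quaternion ℝ)
    (he : ∀ v, C *ᵥ v = 0 → ∃ a, v = rm e a)
    (hn : ∀ v, C *ᵥ v = 0 → (∀ y, fm G v y = 0) → v = 0) :
    ∃ q : ℝ[X], ∀ v, v ≠ 0 → 0 < Phi G C q v := by
  refine ⟨∑ s ∈ S, Polynomial.C (σ s) * Lagrange.basis S id s, fun v hv => ?_⟩
  obtain ⟨p, hp⟩ : ∃ p : ℝ → (ι → Quaternion ℝ) → (ι → Quaternion ℝ),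
      ∀ s y, p s y = aeval (C * C) (Lagrange.basis S id s) *ᵥ y := ⟨_, fun _ _ => rfl⟩
  have peig : ∀ s ∈ S, ∀ y, (C * C) *ᵥ p s y = s • p s y := fun s hs y => by
    rw [hp]; exact ClPos_eig (C * C) S hS s hs y
  have psum : ∀ y, ∑ s ∈ S, p s y = y := fun y => by
    simp only [hp]; exact ClPos_total (C * C) S hS y
  have pzero : ∀ s ∈ S, s = 0 → ∀ y, C *ᵥ p s y = 0 := fun s hs h0 y => by
    apply hJ
    rw [Matrix.mulVec_mulVec, peig s hs y, h0, zero_smul]
  have hq : aeval (C * C) (∑ s ∈ S, Polynomial.C (σ s) * Lagrange.basis S id s) *ᵥ v =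
      ∑ s ∈ S, σ s • p s v := by
    rw [map_sum, Matrix.sum_mulVec]
    refine Finset.sum_congr rfl fun s _ => ?_
    rw [map_mul, aeval_C, Algebra.algebraMap_eq_smul_one, smul_mul_assoc, one_mul,
      Matrix.smul_mulVec, hp]
  have hdiag : ∀ t ∈ S, fm (G * C) v (p t v) = fm (G * C) (p t v) (p t v) := fun t ht => by
    have h1 : fm (G * C) (∑ s ∈ S, p s v) (p t v) = fm (G * C) (p t v) (p t v) := by
      rw [ClPos_sum_left]
      exact Finset.sum_eq_single_of_mem t ht fun s hs hst =>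
        ClPos_orth G C hG hK s t hst _ _ (peig s hs v) (peig t ht v)
    rwa [psum v] at h1
  have hre : (fm (G * C * aeval (C * C)
      (∑ s ∈ S, Polynomial.C (σ s) * Lagrange.basis S id s)) v v).re =
      ∑ t ∈ S, σ t * (fm (G * C) (p t v) (p t v)).re := by
    rw [fm_mul, hq, ClPos_sum_right]
    have h2 := map_sum (QuaternionAlgebra.reₗ (-1 : ℝ) 0 (-1))
      (fun t => fm (G * C) v (σ t • p t v)) S
    refine h2.trans (Finset.sum_congr rfl fun t ht => ?_)
    rw [ClPos_smul_right, hdiag t ht]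
    rfl
  have hnn : ∀ t ∈ S, 0 ≤ σ t * (fm (G * C) (p t v) (p t v)).re := fun t ht => by
    by_cases h0 : t = 0
    · rw [fm_mul, pzero t ht h0 v, ClPos_zero_right]
      exact (mul_zero (σ t)).ge
    · by_cases h1 : p t v = 0
      · rw [h1, fm_zero]
        exact (mul_zero (σ t)).ge
      · exact (hσ t ht h0 _ h1 (peig t ht v)).le
  rw [Phi, hre]
  by_contra hcon
  have hs0 : 0 ≤ ∑ t ∈ S, σ t * (fm (G * C) (p t v) (p t v)).re := Finset.sum_nonneg hnn
  have hn0 : 0 ≤ ‖fm G v v‖ := norm_nonneg _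
  have hA : ‖fm G v v‖ = 0 := by linarith [not_lt.mp hcon]
  have hB : ∑ t ∈ S, σ t * (fm (G * C) (p t v) (p t v)).re = 0 := by linarith [not_lt.mp hcon]
  have hvv : fm G v v = 0 := norm_eq_zero.mp hA
  have hC : C *ᵥ v = 0 := by
    have h3 : C *ᵥ (∑ s ∈ S, p s v) = 0 := by
      rw [Matrix.mulVec_sum]
      refine Finset.sum_eq_zero fun t ht => ?_
      by_cases h0 : t = 0
      · exact pzero t ht h0 v
      · by_cases h1 : p t v = 0
        · rw [h1, Matrix.mulVec_zero]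
        · have h4 := hσ t ht h0 _ h1 (peig t ht v)
          have h5 := (Finset.sum_eq_zero_iff_of_nonneg hnn).mp hB t ht
          exact absurd h5 h4.ne'
    rwa [psum v] at h3
  obtain ⟨a, ha⟩ := he v hC
  have ha0 : a ≠ 0 := by
    intro h0
    apply hv
    rw [ha, h0]
    funext i
    simp [rm]
  apply hv
  apply hn v hC
  intro y
  rw [← psum y, ClPos_sum_right]
  refine Finset.sum_eq_zero fun t ht => ?_
  by_cases h0 : t = 0
  · obtain ⟨b, hb⟩ := he _ (pzero t ht h0 y)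
    have h6 : p t y = rm v (a⁻¹ * b) := by
      rw [hb, ha, rm_rm, ← mul_assoc, mul_inv_cancel₀ ha0, one_mul]
    rw [h6, fm_rm_right, hvv, zero_mul]
  · have h7 : t • fm G v (p t y) = 0 := by
      rw [← ClPos_smul_right, ← peig t ht y, ← Matrix.mulVec_mulVec, fm_skew G C hG hK, hC,
        ClPos_zero_left, neg_zero]
    exact (smul_eq_zero.mp h7).resolve_left h0

end Pool.Agent.Lib.MP_554556_an
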