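import Pool.Agent.Lib.MP_554556_an.ClZero
import Pool.Agent.Lib.MP_554556_an.ClLine
import Pool.Agent.Lib.MP_554556_an.ClAnn
import Pool.Agent.Lib.MP_554556_an.ClPos
import Pool.Agent.Lib.MP_554556_an.ClCons
import Pool.Agent.Lib.MP_554556_an.ClOpen

set_option autoImplicit false

namespace Pool.Agent.Lib.MP_554556_an

open Matrix Polynomial

theorem classification {n m : ℕ}
    (A : Fin (m + 1 + 1) → Matrix (Fin n) (Fin n) (Quaternion ℝ)) (hA : Symm A)
    (hU : IsUnit (A (Fin.last (m + 1)))) :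
    StablyBounded A ↔
      (∀ lam, lam ≠ 0 → IsEigenvalue (companion A) lam →
        IsPositive (Gmat A * companion A) (rootSubspace (companion A) lam) ∨
          IsNegative (Gmat A * companion A) (rootSubspace (companion A) lam)) ∧
      ∃ e : Fin (m + 1) × Fin n → Quaternion ℝ,
        ∀ v ∈ rootSubspace (companion A) 0, ∃ a, v = fun i => e i * a := by
  have hG := Gmat_skew A hA
  have hK := GC_herm A hA hU
  constructor
  · intro hS
    refine ⟨fun lam h0 hl => ?_, line_of_neutral _ _ hG hK (neutral_of_stable A hA hU hS)⟩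
    obtain ⟨v, hv0, hv⟩ := hl
    have hv' : companion A *ᵥ v = rm v lam := hv
    refine definite_root _ _ hG hK (NN_of_stable A hA hU hS) lam ?_ h0
    by_contra hre
    obtain ⟨h1, h2⟩ := eigen_struct A hU v _ hv'
    obtain ⟨ε, hε, hS⟩ := hS
    exact unbounded A _ (block_ne_zero v v _ hv0 h1) lam hre h2
      (hS A hA (fun k i j => by simpa using hε))
  · rintro ⟨hD, hL⟩
    obtain ⟨hJ, e, -, he⟩ := jordan_of_line _ hL
    obtain ⟨S, σ, hS, hσ⟩ := annihilator _ _ hG hK hD hJ
    obtain ⟨q, hq⟩ := phi_pos _ _ hG hK S σ hS hσ hJ e he (ker_nondeg A hU)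
    obtain ⟨ε, hε, h⟩ := phi_open A hU q hq
    refine ⟨ε, hε, fun A' hA' hc => ?_⟩
    obtain ⟨hU', c, hc0, hc1⟩ := h A' hc
    exact bounded_of_phi A' hA' hU' q c hc0 hc1

end Pool.Agent.Lib.MP_554556_an
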