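import Pool.Agent.Lib.MP_554556_an.ClDef

set_option autoImplicit false

namespace Pool.Agent.Lib.MP_554556_an

open Matrix Polynomial

lemma clzero_real (a : ℝ) (F : Quaternion ℝ) :
    star (-(F * la 0 a) - -F.im * la 0 a) = -(F * la 0 a) - -F.im * la 0 a := by
  ext <;> simp [la, mul_comm a]

lemma clzero_perturb {n : ℕ} (x : Fin n → Quaternion ℝ) (hx : x ≠ 0)
    (r : ℝ → Fin n → Quaternion ℝ) (F : ℝ → Quaternion ℝ) (hr : Continuous r) (hF : Continuous F)
    (r0 : r 0 = 0) (F0 : F 0 = 0)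
    (hrel : ∀ a, star x ⬝ᵥ r a = F a * la 0 a) (ε : ℝ) (hε : 0 < ε) :
    ∃ (a : ℝ) (K S : Matrix (Fin n) (Fin n) (Quaternion ℝ)), a ≠ 0 ∧ Kᴴ = K ∧ Sᴴ = -S ∧
      (∀ i j, ‖K i j‖ < ε) ∧ (∀ i j, ‖S i j‖ < ε) ∧
      r a + K *ᵥ x + S *ᵥ rm x (la 0 a) = 0 := by
  obtain ⟨N, hN, hxx⟩ := dot_self x hx
  let q : ℝ → Quaternion ℝ := fun a => -(F a).im
  let y : ℝ → Fin n → Quaternion ℝ := fun a => -r a - N⁻¹ • rm x (q a * la 0 a)
  let s : ℝ → Quaternion ℝ := fun a => star x ⬝ᵥ y a
  let S : ℝ → Matrix (Fin n) (Fin n) (Quaternion ℝ) := fun a => (N ^ 2)⁻¹ • outer (rm x (q a)) x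
  let K : ℝ → Matrix (Fin n) (Fin n) (Quaternion ℝ) := fun a =>
    N⁻¹ • (outer (y a) x + outer x (y a)) - (N ^ 2)⁻¹ • outer (rm x (s a)) x
  have hq : Continuous q := (Quaternion.continuous_im.comp hF).neg
  have hqs : ∀ a, star (q a) = -q a := fun a => by ext <;> simp [q]
  have hla := continuous_la 0
  have hy : Continuous y := by
    apply continuous_pi; intro i
    have : Continuous fun a => r a i := (continuous_apply i).comp hr
    simp only [y, rm, Pi.sub_apply, Pi.neg_apply, Pi.smul_apply]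
    fun_prop
  have hyi : ∀ i, Continuous fun a => y a i := fun i => (continuous_apply i).comp hy
  have hs : Continuous s := by
    simp only [s, dotProduct]
    fun_prop
  have q0 : q 0 = 0 := by
    simp only [q, F0]
    exact neg_eq_zero.2 rfl
  have y0 : y 0 = 0 := by
    funext i; simp [y, r0, q0, rm]
  have s0 : s 0 = 0 := by simp [s, y0]
  have hsr : ∀ a, star (s a) = s a := by
    intro a
    have : s a = -(F a * la 0 a) - -(F a).im * la 0 a := by
      simp only [s, y, dotProduct_sub, dotProduct_neg, hrel, dotProduct_smul, dot_rm, hxx, q]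
      rw [Quaternion.coe_mul_eq_smul, smul_smul, inv_mul_cancel₀ hN.ne', one_smul]
    rw [this]; exact clzero_real a (F a)
  have hSc : ∀ i j, Continuous fun a => S a i j := by
    intro i j
    simp only [S, outer, rm, Matrix.smul_apply]
    fun_prop
  have hKc : ∀ i j, Continuous fun a => K a i j := by
    intro i j
    have h1 := hyi i
    have h2 := hyi j
    simp only [K, outer, rm, Matrix.smul_apply, Matrix.sub_apply, Matrix.add_apply]
    fun_prop
  have S0 : ∀ i j, S 0 i j = 0 := by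
    intro i j; simp [S, outer, rm, q0]
  have K0 : ∀ i j, K 0 i j = 0 := by
    intro i j; simp [K, outer, rm, y0, s0]
  have evS : ∀ᶠ a in nhds (0 : ℝ), ∀ i j, ‖S a i j‖ < ε := by
    simp only [Filter.eventually_all]
    intro i j
    apply ContinuousAt.eventually_lt (hSc i j).norm.continuousAt continuousAt_const
    simpa [S0] using hε
  have evK : ∀ᶠ a in nhds (0 : ℝ), ∀ i j, ‖K a i j‖ < ε := by
    simp only [Filter.eventually_all]
    intro i j
    apply ContinuousAt.eventually_lt (hKc i j).norm.continuousAt continuousAt_const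
    simpa [K0] using hε
  have ev : ∀ᶠ a in nhdsWithin (0 : ℝ) {0}ᶜ, (∀ i j, ‖S a i j‖ < ε) ∧ (∀ i j, ‖K a i j‖ < ε) :=
    (evS.and evK).filter_mono nhdsWithin_le_nhds
  obtain ⟨a, ⟨hSa, hKa⟩, ha⟩ := (ev.and self_mem_nhdsWithin).exists
  refine ⟨a, K a, S a, ha, ?_, ?_, hKa, hSa, ?_⟩
  · simp only [K, Matrix.conjTranspose_sub, ct_smul, Matrix.conjTranspose_add,
      outer_ct, outer_rm, hsr]
    rw [add_comm]
  · simp only [S, ct_smul, outer_ct, outer_rm, hqs, rm_neg]
    ext1 i j; simp [outer]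
  · have h1 : star (y a) ⬝ᵥ x = s a := by rw [← dot_star, hsr]
    have h2 : K a *ᵥ x = y a := by
      simp only [K, Matrix.sub_mulVec, Matrix.smul_mulVec, Matrix.add_mulVec, outer_mulVec, hxx,
        h1, rm_coe, smul_add, smul_smul]
      have e1 : N⁻¹ * N = 1 := inv_mul_cancel₀ hN.ne'
      have e2 : (N ^ 2)⁻¹ * N = N⁻¹ := by field_simp
      rw [e1, e2, one_smul]; abel
    have h3 : S a *ᵥ rm x (la 0 a) = N⁻¹ • rm x (q a * la 0 a) := by
      simp only [S, mulVec_rm, Matrix.smul_mulVec, outer_mulVec, hxx, rm_coe, smul_smul, rm_smul,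
        rm_rm]
      have e2 : (N ^ 2)⁻¹ * N = N⁻¹ := by field_simp
      rw [e2]
    rw [h2, h3]; simp only [y]; abel

lemma clzero_la : la 0 0 = 0 := rfl

lemma clzero_rm {ι : Type} (v : ι → Quaternion ℝ) : rm v 0 = 0 := by
  funext i; simp [rm]

/-- A stably bounded system has no nonzero `G`-neutral vector in the kernel of `C`. -/
theorem neutral_of_stable {n m : ℕ}
    (A : Fin (m + 1 + 1) → Matrix (Fin n) (Fin n) (Quaternion ℝ)) (hA : Symm A)
    (hU : IsUnit (A (Fin.last (m + 1)))) (hS : StablyBounded A)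
    (v : Fin (m + 1) × Fin n → Quaternion ℝ) (hv : companion A *ᵥ v = 0)
    (h0 : fm (Gmat A) v v = 0) : v = 0 := by
  by_contra hv0
  obtain ⟨ε, hε, hS⟩ := hS
  obtain ⟨h1, h2⟩ := eigen_struct A hU v 0 (hv.trans (clzero_rm v).symm)
  set x : Fin n → Quaternion ℝ := fun a => v (0, a) with hxdef
  have hx : x ≠ 0 := block_ne_zero v v _ hv0 h1
  have hG := Gmat_skew A hA
  have hK := GC_herm A hA hU
  have hla := continuous_la 0
  obtain ⟨a, K, S, ha, hKh, hSh, hKe, hSe, hsum⟩ := clzero_perturb x hx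
    (fun a => res A x (la 0 a)) (fun a => fm (Gmat A) v (vv m x (la 0 a)))
    (by
      apply continuous_pi; intro i
      simp only [res, Finset.sum_apply, Matrix.mulVec, dotProduct, rm]
      fun_prop)
    (by
      simp only [fm, Matrix.mulVec, dotProduct, vv]
      fun_prop)
    (by simp only [clzero_la, h2])
    (by simp only [clzero_la, ← h1, h0])
    (by
      intro a
      have e1 := fm_skew _ _ hG hK v (vv m x (la 0 a))
      rw [C_vv A hU, fm_sub_right, fm_rm_right, fm_eL, hv, ← clzero_rm v, fm_rm_left, star_zero,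
        Matrix.mulVec_mulVec, Ring.mul_inverse_cancel _ hU, Matrix.one_mulVec] at e1
      rw [zero_mul, neg_zero, sub_eq_zero] at e1
      exact e1.symm)
    ε hε
  let A' : Fin (m + 1 + 1) → Matrix (Fin n) (Fin n) (Quaternion ℝ) := fun k =>
    A k + (if k.val = 0 then K else 0) + (if k.val = 1 then S else 0)
  have hA' : Symm A' := by
    intro k
    constructor
    · intro ho
      have h0 : k.val ≠ 0 := by rintro h; rw [h] at ho; simp at ho
      simp only [A', h0, if_false, add_zero, Matrix.conjTranspose_add, (hA k).1 ho, neg_add]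
      split_ifs <;> simp [hSh]
    · intro he
      have h0 : k.val ≠ 1 := by rintro h; rw [h] at he; simp at he
      simp only [A', h0, if_false, add_zero, Matrix.conjTranspose_add, (hA k).2 he]
      split_ifs <;> simp [hKh]
  have hclose : ∀ k i j, ‖A' k i j - A k i j‖ < ε := by
    intro k i j
    simp only [A', Matrix.add_apply]
    by_cases h0 : k.val = 0
    · simpa [h0] using hKe i j
    · by_cases h1 : k.val = 1
      · simpa [h1] using hSe i j
      · simpa [h0, h1] using hε
  apply unbounded A' x hx (la 0 a) ha _ (hS A' hA' hclose)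
  rw [← hsum]
  simp only [res, A', Matrix.add_mulVec, Finset.sum_add_distrib]
  congr 1
  · congr 1
    rw [Finset.sum_eq_single (0 : Fin (m + 1 + 1))]
    · simp only [Fin.val_zero, if_true, pow_zero]
      congr 1; funext i; simp [rm]
    · intro k _ hk
      have : k.val ≠ 0 := fun h => hk (Fin.ext h)
      simp [this]
    · simp
  · rw [Finset.sum_eq_single (⟨1, by omega⟩ : Fin (m + 1 + 1))]
    · simp
    · intro k _ hk
      have : k.val ≠ 1 := fun h => hk (Fin.ext h)
      simp [this]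
    · simp

/-- Vectors of the kernel of `C` are not in the radical of `G`. -/
theorem ker_nondeg {n m : ℕ}
    (A : Fin (m + 1 + 1) → Matrix (Fin n) (Fin n) (Quaternion ℝ))
    (hU : IsUnit (A (Fin.last (m + 1)))) (v : Fin (m + 1) × Fin n → Quaternion ℝ)
    (hv : companion A *ᵥ v = 0) (h0 : ∀ y, fm (Gmat A) v y = 0) : v = 0 := by
  by_contra hv0
  obtain ⟨h1, -⟩ := eigen_struct A hU v 0 (hv.trans (clzero_rm v).symm)
  obtain ⟨N, hN, hxx⟩ := dot_self _ (block_ne_zero v v _ hv0 h1)
  have e := h0 (eL m (Ring.inverse (A (Fin.last (m + 1))) *ᵥ fun a => v (0, a)))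
  rw [fm_eL, Matrix.mulVec_mulVec, Ring.mul_inverse_cancel _ hU, Matrix.one_mulVec, hxx] at e
  exact hN.ne' (congrArg QuaternionAlgebra.re e)

end Pool.Agent.Lib.MP_554556_an
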