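import Pool.Agent.Lib.MP_554556_an.Ana

set_option autoImplicit false

namespace Pool.Agent.Lib.MP_554556_an

open Matrix
open scoped Quaternion

variable {n m : ℕ}

/-- Extension of the coefficient family by zero. -/
noncomputable def ex (A : Fin (m + 1 + 1) → Matrix (Fin n) (Fin n) (Quaternion ℝ)) (k : ℕ) :
    Matrix (Fin n) (Fin n) (Quaternion ℝ) := if h : k < m + 1 + 1 then A ⟨k, h⟩ else 0

lemma ex_fin (A : Fin (m + 1 + 1) → Matrix (Fin n) (Fin n) (Quaternion ℝ)) (k : Fin (m + 1 + 1)) :
    ex A k.val = A k := by simp [ex, k.isLt]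

lemma Gmat_apply (A : Fin (m + 1 + 1) → Matrix (Fin n) (Fin n) (Quaternion ℝ))
    (p q : Fin (m + 1) × Fin n) :
    Gmat A p q = (-1) ^ p.1.val * ex A (p.1.val + q.1.val + 1) p.2 q.2 := by
  unfold Gmat ex
  split_ifs <;> simp

lemma ex_star (A : Fin (m + 1 + 1) → Matrix (Fin n) (Fin n) (Quaternion ℝ)) (hA : Symm A) (k : ℕ)
    (i j : Fin n) : star (ex A k j i) = (-1) ^ k * ex A k i j := by
  unfold ex
  split_ifs with h
  · rcases Nat.even_or_odd k with he | ho
    · have := congrFun (congrFun ((hA ⟨k, h⟩).2 he) i) j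
      rw [he.neg_one_pow, one_mul, ← this, Matrix.conjTranspose_apply]
    · have := congrFun (congrFun ((hA ⟨k, h⟩).1 ho) i) j
      rw [Matrix.conjTranspose_apply] at this
      rw [ho.neg_one_pow, this]; simp
  · simp

lemma star_sign (a : ℕ) (z : Quaternion ℝ) : star ((-1) ^ a * z) = (-1) ^ a * star z := by
  rcases Nat.even_or_odd a with h | h <;> simp [h.neg_one_pow]

lemma sign_sign (a b : ℕ) (z : Quaternion ℝ) :
    (-1) ^ b * ((-1) ^ (a + b) * z) = (-1) ^ a * z := by
  rw [← mul_assoc, ← pow_add, show b + (a + b) = a + 2 * b by ring, pow_add, pow_mul]; simp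

lemma Gmat_skew (A : Fin (m + 1 + 1) → Matrix (Fin n) (Fin n) (Quaternion ℝ)) (hA : Symm A) :
    (Gmat A)ᴴ = -Gmat A := by
  ext1 p q
  rw [Matrix.conjTranspose_apply, Matrix.neg_apply, Gmat_apply, Gmat_apply, star_sign,
    ex_star A hA, show q.1.val + p.1.val + 1 = p.1.val + q.1.val + 1 by ring,
    show p.1.val + q.1.val + 1 = (p.1.val + 1) + q.1.val by ring, sign_sign, pow_succ]
  simp

/-- The shift part of the companion matrix. -/
noncomputable def Umat (n m : ℕ) :
    Matrix (Fin (m + 1) × Fin n) (Fin (m + 1) × Fin n) (Quaternion ℝ) :=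
  fun p q => if q.1.val = p.1.val + 1 then (1 : Matrix (Fin n) (Fin n) (Quaternion ℝ)) p.2 q.2
    else 0

/-- The last block row of the companion matrix. -/
noncomputable def Lmat (A : Fin (m + 1 + 1) → Matrix (Fin n) (Fin n) (Quaternion ℝ)) :
    Matrix (Fin (m + 1) × Fin n) (Fin (m + 1) × Fin n) (Quaternion ℝ) :=
  fun p q => if p.1 = Fin.last m then
    (-(Ring.inverse (A (Fin.last (m + 1))) * A q.1.castSucc)) p.2 q.2 else 0

lemma companion_eq (A : Fin (m + 1 + 1) → Matrix (Fin n) (Fin n) (Quaternion ℝ)) :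
    companion A = Umat n m + Lmat A := by
  ext1 p q
  simp only [companion, Umat, Lmat, Matrix.add_apply]
  have hq := q.1.isLt
  by_cases h : p.1 = Fin.last m
  · have h1 : p.1.val + 1 = m + 1 := by rw [h]; simp
    have h2 : ¬ q.1.val = p.1.val + 1 := by omega
    rw [if_pos h1, if_neg h2, if_pos h, zero_add]
  · have h1 : ¬ p.1.val + 1 = m + 1 := fun h1 => h (Fin.ext (by simp; omega))
    rw [if_neg h1, if_neg h, add_zero]

lemma GU_apply (A : Fin (m + 1 + 1) → Matrix (Fin n) (Fin n) (Quaternion ℝ))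
    (p q : Fin (m + 1) × Fin n) :
    (Gmat A * Umat n m) p q =
      if q.1.val = 0 then 0 else (-1) ^ p.1.val * ex A (p.1.val + q.1.val) p.2 q.2 := by
  rw [Matrix.mul_apply]
  split_ifs with h
  · apply Finset.sum_eq_zero
    intro r _
    have : ¬ q.1.val = r.1.val + 1 := by omega
    simp [Umat, this]
  · have hq := q.1.isLt
    rw [Finset.sum_eq_single (⟨⟨q.1.val - 1, by omega⟩, q.2⟩ : Fin (m + 1) × Fin n)]
    · have e : q.1.val = q.1.val - 1 + 1 := by omega
      have e2 : p.1.val + (q.1.val - 1) + 1 = p.1.val + q.1.val := by omega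
      simp only [Umat, Gmat_apply, e2]
      rw [if_pos e]; simp
    · rintro ⟨r1, r2⟩ _ hr
      simp only [Umat]
      split_ifs with h1
      · have h2 : r2 ≠ q.2 := by
          intro h2; apply hr
          ext
          · simp; omega
          · simp [h2]
        simp [Matrix.one_apply_ne h2]
      · simp
    · simp

lemma GL_apply (A : Fin (m + 1 + 1) → Matrix (Fin n) (Fin n) (Quaternion ℝ))
    (hU : IsUnit (A (Fin.last (m + 1)))) (p q : Fin (m + 1) × Fin n) :
    (Gmat A * Lmat A) p q = if p.1.val = 0 then -ex A q.1.val p.2 q.2 else 0 := by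
  rw [Matrix.mul_apply, Fintype.sum_prod_type, Finset.sum_eq_single (Fin.last m)]
  · simp only [Lmat, if_true, Gmat_apply, Fin.val_last]
    split_ifs with h
    · have e : ex A (p.1.val + m + 1) = A (Fin.last (m + 1)) := by
        rw [← ex_fin A, h]; simp
      have e2 : ex A q.1.val = A q.1.castSucc := by rw [← ex_fin A]; simp
      rw [e, h, e2]
      simp only [pow_zero, one_mul]
      rw [← Matrix.mul_apply, mul_neg, ← mul_assoc, Ring.mul_inverse_cancel _ hU, one_mul]
      rfl
    · have e : ex A (p.1.val + m + 1) = 0 := by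
        unfold ex; rw [dif_neg (by omega)]
      simp [e]
  · intro r _ hr
    simp [Lmat, hr]
  · simp

lemma GC_herm (A : Fin (m + 1 + 1) → Matrix (Fin n) (Fin n) (Quaternion ℝ)) (hA : Symm A)
    (hU : IsUnit (A (Fin.last (m + 1)))) :
    (Gmat A * companion A)ᴴ = Gmat A * companion A := by
  ext1 p q
  rw [Matrix.conjTranspose_apply, companion_eq, Matrix.mul_add, Matrix.add_apply,
    Matrix.add_apply, GU_apply, GU_apply, GL_apply A hU, GL_apply A hU]
  by_cases hp : p.1.val = 0 <;> by_cases hq : q.1.val = 0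
  · simp [hp, hq, ex_star A hA]
  · simp [hp, hq]
  · simp [hp, hq]
  · simp only [hp, hq, if_false, add_zero]
    rw [star_sign, ex_star A hA, add_comm q.1.val p.1.val, sign_sign]

/-- The vector with blocks `x, x lam, x lam², …`. -/
noncomputable def vv (m : ℕ) (x : Fin n → Quaternion ℝ) (lam : Quaternion ℝ) :
    Fin (m + 1) × Fin n → Quaternion ℝ := fun p => x p.2 * lam ^ p.1.val

/-- The vector supported on the last block. -/
noncomputable def eL (m : ℕ) (y : Fin n → Quaternion ℝ) : Fin (m + 1) × Fin n → Quaternion ℝ :=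
  fun p => if p.1 = Fin.last m then y p.2 else 0

lemma U_mulVec (v : Fin (m + 1) × Fin n → Quaternion ℝ) (p : Fin (m + 1) × Fin n) :
    (Umat n m *ᵥ v) p = if h : p.1.val + 1 < m + 1 then v (⟨p.1.val + 1, h⟩, p.2) else 0 := by
  simp only [Matrix.mulVec, dotProduct]
  split_ifs with h
  · rw [Finset.sum_eq_single (⟨⟨p.1.val + 1, h⟩, p.2⟩ : Fin (m + 1) × Fin n)]
    · simp [Umat]
    · rintro ⟨r1, r2⟩ _ hr
      simp only [Umat]
      split_ifs with h1
      · have h2 : p.2 ≠ r2 := by
          intro h2; apply hr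
          ext
          · simpa using h1
          · simp [h2]
        simp [Matrix.one_apply_ne h2]
      · simp
    · simp
  · apply Finset.sum_eq_zero
    intro r _
    have := r.1.isLt
    have : ¬ r.1.val = p.1.val + 1 := by omega
    simp [Umat, this]

lemma L_mulVec (A : Fin (m + 1 + 1) → Matrix (Fin n) (Fin n) (Quaternion ℝ))
    (v : Fin (m + 1) × Fin n → Quaternion ℝ) :
    Lmat A *ᵥ v = eL m (-(Ring.inverse (A (Fin.last (m + 1))) *ᵥ
      ∑ j : Fin (m + 1), A j.castSucc *ᵥ fun a => v (j, a))) := by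
  funext p
  simp only [eL]
  split_ifs with h
  · rw [Matrix.mulVec_sum]
    simp only [Matrix.mulVec_mulVec, Pi.neg_apply, Finset.sum_apply]
    simp only [Matrix.mulVec, dotProduct, Lmat, h, if_true, Fintype.sum_prod_type,
      Matrix.neg_apply, neg_mul, Finset.sum_neg_distrib]
  · simp [Matrix.mulVec, dotProduct, Lmat, h]

lemma C_vv (A : Fin (m + 1 + 1) → Matrix (Fin n) (Fin n) (Quaternion ℝ))
    (hU : IsUnit (A (Fin.last (m + 1)))) (x : Fin n → Quaternion ℝ) (lam : Quaternion ℝ) :
    companion A *ᵥ vv m x lam = rm (vv m x lam) lam -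
      eL m (Ring.inverse (A (Fin.last (m + 1))) *ᵥ res A x lam) := by
  have h1 : Ring.inverse (A (Fin.last (m + 1))) *ᵥ res A x lam =
      Ring.inverse (A (Fin.last (m + 1))) *ᵥ
        (∑ j : Fin (m + 1), A j.castSucc *ᵥ fun a => vv m x lam (j, a)) + rm x (lam ^ (m + 1)) := by
    rw [res, Fin.sum_univ_castSucc, Matrix.mulVec_add, Matrix.mulVec_mulVec,
      Ring.inverse_mul_cancel _ hU, Matrix.one_mulVec]
    rfl
  rw [companion_eq, Matrix.add_mulVec, L_mulVec, h1]
  funext p
  rw [Pi.add_apply, U_mulVec]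
  simp only [eL, rm, Pi.sub_apply, Pi.add_apply, Pi.neg_apply]
  by_cases h : p.1 = Fin.last m
  · have h1 : ¬ p.1.val + 1 < m + 1 := by rw [h]; simp
    rw [dif_neg h1, if_pos h, if_pos h]
    simp only [vv, h, Fin.val_last, mul_assoc, ← pow_succ]
    abel
  · have h1 : p.1.val + 1 < m + 1 := by
      have := Fin.val_lt_last h; omega
    rw [dif_pos h1, if_neg h, if_neg h]
    simp only [vv, mul_assoc, ← pow_succ]
    abel

lemma fm_eL (A : Fin (m + 1 + 1) → Matrix (Fin n) (Fin n) (Quaternion ℝ))
    (u : Fin (m + 1) × Fin n → Quaternion ℝ) (y : Fin n → Quaternion ℝ) :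
    fm (Gmat A) u (eL m y) = star (fun a => u (0, a)) ⬝ᵥ (A (Fin.last (m + 1)) *ᵥ y) := by
  have h : ∀ p : Fin (m + 1) × Fin n, (Gmat A *ᵥ eL m y) p =
      if p.1 = 0 then (A (Fin.last (m + 1)) *ᵥ y) p.2 else 0 := by
    intro p
    simp only [Matrix.mulVec, dotProduct]
    rw [Fintype.sum_prod_type, Finset.sum_eq_single (Fin.last m)]
    · simp only [eL, if_true, Gmat_apply, Fin.val_last]
      split_ifs with h
      · have e : ex A (p.1.val + m + 1) = A (Fin.last (m + 1)) := by
          rw [← ex_fin A, h]; simp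
        rw [e, h]; simp
      · have h' : p.1.val ≠ 0 := fun h' => h (Fin.ext h')
        have e : ex A (p.1.val + m + 1) = 0 := by
          unfold ex; rw [dif_neg (by omega)]
        simp [e]
    · intro r _ hr
      simp [eL, hr]
    · simp
  simp only [fm, dotProduct, h, Fintype.sum_prod_type, Pi.star_apply]
  rw [Finset.sum_eq_single (0 : Fin (m + 1))]
  · simp
  · intro r _ hr; simp [hr]
  · simp

lemma eigen_struct (A : Fin (m + 1 + 1) → Matrix (Fin n) (Fin n) (Quaternion ℝ))
    (hU : IsUnit (A (Fin.last (m + 1)))) (v : Fin (m + 1) × Fin n → Quaternion ℝ)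
    (lam : Quaternion ℝ) (hv : companion A *ᵥ v = rm v lam) :
    v = vv m (fun a => v (0, a)) lam ∧ res A (fun a => v (0, a)) lam = 0 := by
  have h1 : v = vv m (fun a => v (0, a)) lam := by
    funext ⟨i, a⟩
    induction i using Fin.induction with
    | zero => simp [vv]
    | succ i ih =>
      have h2 := congrFun hv (i.castSucc, a)
      have h3 : i.castSucc ≠ Fin.last m := (Fin.castSucc_lt_last i).ne
      rw [companion_eq, Matrix.add_mulVec, L_mulVec, Pi.add_apply, U_mulVec,
        dif_pos (by simp)] at h2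
      simp only [eL, h3, if_false, add_zero, rm] at h2
      rw [ih] at h2
      simp only [vv, Fin.val_succ, Fin.val_castSucc, mul_assoc, ← pow_succ] at h2 ⊢
      exact h2
  refine ⟨h1, ?_⟩
  have h2 := C_vv A hU (fun a => v (0, a)) lam
  rw [← h1, hv] at h2
  have h3 : eL m (Ring.inverse (A (Fin.last (m + 1))) *ᵥ res A (fun a => v (0, a)) lam) = 0 := by
    rw [eq_comm, sub_eq_self] at h2; exact h2
  have h4 : Ring.inverse (A (Fin.last (m + 1))) *ᵥ res A (fun a => v (0, a)) lam = 0 := by
    funext a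
    have := congrFun h3 (Fin.last m, a)
    simpa [eL] using this
  have h5 := congrArg (fun z => A (Fin.last (m + 1)) *ᵥ z) h4
  simp only [Matrix.mulVec_mulVec, Ring.mul_inverse_cancel _ hU, Matrix.one_mulVec,
    Matrix.mulVec_zero] at h5
  exact h5

lemma block_ne_zero (v x : Fin (m + 1) × Fin n → Quaternion ℝ) (lam : Quaternion ℝ) (hv0 : v ≠ 0)
    (h : v = vv m (fun a => x (0, a)) lam) : (fun a => x (0, a)) ≠ 0 := by
  intro h0
  apply hv0
  rw [h, h0]; funext p; simp [vv]

lemma la_zero (β : ℝ) : la β 0 = mu β := rfl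

/-- A stably bounded system has no nonzero neutral eigenvector for `β i`, `β ≠ 0`. -/
lemma NN_of_stable (A : Fin (m + 1 + 1) → Matrix (Fin n) (Fin n) (Quaternion ℝ)) (hA : Symm A)
    (hU : IsUnit (A (Fin.last (m + 1)))) (hS : StablyBounded A) (β : ℝ) (hβ : β ≠ 0) :
    NN (Gmat A) (companion A) β := by
  intro v hv hQ
  by_contra hv0
  obtain ⟨ε, hε, hS⟩ := hS
  obtain ⟨h1, h2⟩ := eigen_struct A hU v _ hv
  set x : Fin n → Quaternion ℝ := fun a => v (0, a) with hxdef
  have hx : x ≠ 0 := block_ne_zero v v _ hv0 h1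
  have hG := Gmat_skew A hA
  have hK := GC_herm A hA hU
  have hla := continuous_la β
  obtain ⟨a, K, S, ha, hKh, hSh, hKe, hSe, hsum⟩ := perturb x hx β hβ
    (fun a => res A x (la β a)) (fun a => fm (Gmat A) v (vv m x (la β a)))
    (by
      apply continuous_pi; intro i
      simp only [res, Finset.sum_apply, Matrix.mulVec, dotProduct, rm]
      fun_prop)
    (by
      simp only [fm, Matrix.mulVec, dotProduct, vv]
      fun_prop)
    (by simp only [la_zero, h2])
    (by
      simp only [la_zero, ← h1]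
      have e1 := fm_real _ hK v
      rw [hQ, fm_mul, hv, fm_rm_right] at e1
      have e2 : fm (Gmat A) v v * mu β = 0 := by simpa using e1
      exact (mul_eq_zero.mp e2).resolve_right (mu_ne_zero β hβ))
    (by
      intro a
      have e1 := fm_skew _ _ hG hK v (vv m x (la β a))
      rw [C_vv A hU, fm_sub_right, fm_rm_right, fm_eL, hv, fm_rm_left, star_mu,
        Matrix.mulVec_mulVec, Ring.mul_inverse_cancel _ hU, Matrix.one_mulVec] at e1
      rw [neg_mul, neg_neg] at e1
      rw [← e1]; abel)
    ε hε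
  let A' : Fin (m + 1 + 1) → Matrix (Fin n) (Fin n) (Quaternion ℝ) := fun k =>
    A k + (if k.val = 0 then K else 0) + (if k.val = 1 then S else 0)
  have hA' : Symm A' := by
    intro k
    constructor
    · intro ho
      have h0 : k.val ≠ 0 := by rintro h; rw [h] at ho; simp at ho
      simp only [A', h0, if_false, add_zero, Matrix.conjTranspose_add, (hA k).1 ho, neg_add]
      split_ifs <;> simp [hSh]
    · intro he
      have h0 : k.val ≠ 1 := by rintro h; rw [h] at he; simp at he
      simp only [A', h0, if_false, add_zero, Matrix.conjTranspose_add, (hA k).2 he]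
      split_ifs <;> simp [hKh]
  have hclose : ∀ k i j, ‖A' k i j - A k i j‖ < ε := by
    intro k i j
    simp only [A', Matrix.add_apply]
    by_cases h0 : k.val = 0
    · simpa [h0] using hKe i j
    · by_cases h1 : k.val = 1
      · simpa [h1] using hSe i j
      · simpa [h0, h1] using hε
  apply unbounded A' x hx (la β a) ha _ (hS A' hA' hclose)
  rw [← hsum]
  simp only [res, A', Matrix.add_mulVec, Finset.sum_add_distrib]
  congr 1
  · congr 1
    rw [Finset.sum_eq_single (0 : Fin (m + 1 + 1))]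
    · simp only [Fin.val_zero, if_true, pow_zero]
      congr 1; funext i; simp [rm]
    · intro k _ hk
      have : k.val ≠ 0 := fun h => hk (Fin.ext h)
      simp [this]
    · simp
  · rw [Finset.sum_eq_single (⟨1, by omega⟩ : Fin (m + 1 + 1))]
    · simp
    · intro k _ hk
      have : k.val ≠ 1 := fun h => hk (Fin.ext h)
      simp [this]
    · simp

theorem main (A : Fin (m + 1 + 1) → Matrix (Fin n) (Fin n) (Quaternion ℝ)) (hA : Symm A)
    (hU : IsUnit (A (Fin.last (m + 1)))) (hS : StablyBounded A) (hC : IsUnit (companion A))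
    (lam : Quaternion ℝ) (hl : IsEigenvalue (companion A) lam) :
    IsPositive (Gmat A * companion A) (rootSubspace (companion A) lam) ∨
      IsNegative (Gmat A * companion A) (rootSubspace (companion A) lam) := by
  obtain ⟨v, hv0, hv⟩ := hl
  have hv' : companion A *ᵥ v = rm v lam := hv
  apply definite_root _ _ (Gmat_skew A hA) (GC_herm A hA hU) (NN_of_stable A hA hU hS)
  · by_contra hre
    obtain ⟨h1, h2⟩ := eigen_struct A hU v _ hv'
    obtain ⟨ε, hε, hS⟩ := hS
    exact unbounded A _ (block_ne_zero v v _ hv0 h1) lam hre h2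
      (hS A hA (fun k i j => by simpa using hε))
  · rintro rfl
    apply hv0
    have h1 : companion A *ᵥ v = 0 := by rw [hv']; funext i; simp [rm]
    have h2 := congrArg (fun z => Ring.inverse (companion A) *ᵥ z) h1
    simp only [Matrix.mulVec_mulVec, Ring.inverse_mul_cancel _ hC, Matrix.one_mulVec,
      Matrix.mulVec_zero] at h2
    exact h2

end Pool.Agent.Lib.MP_554556_an
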