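import Mathlib

set_option autoImplicit false

namespace Pool.Agent.Lib.MP_554556_an

open Matrix Polynomial

/-- Symmetry conditions: `A k` is skewhermitian for odd `k` and hermitian for even `k`. -/
def Symm {n l : ℕ} (A : Fin (l + 1) → Matrix (Fin n) (Fin n) (Quaternion ℝ)) : Prop :=
  ∀ k : Fin (l + 1), (Odd k.val → (A k)ᴴ = -A k) ∧ (Even k.val → (A k)ᴴ = A k)

/-- `x` is an `l` times continuously differentiable solution of `∑ A_k x^(k)(t) = 0` on `ℝ`. -/
def IsSolution {n l : ℕ} (A : Fin (l + 1) → Matrix (Fin n) (Fin n) (Quaternion ℝ))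
    (x : ℝ → Fin n → Quaternion ℝ) : Prop :=
  ContDiff ℝ (l : ℕ∞) x ∧ ∀ t : ℝ, ∑ k : Fin (l + 1), A k *ᵥ iteratedDeriv k.val x t = 0

/-- Every solution is bounded on all of `ℝ`. -/
def IsBoundedSystem {n l : ℕ} (A : Fin (l + 1) → Matrix (Fin n) (Fin n) (Quaternion ℝ)) : Prop :=
  ∀ x, IsSolution A x → ∃ M : ℝ, ∀ t : ℝ, ‖x t‖ ≤ M

/-- Every nearby system with the same symmetries is bounded (largest-entry matrix norm). -/
def StablyBounded {n l : ℕ} (A : Fin (l + 1) → Matrix (Fin n) (Fin n) (Quaternion ℝ)) : Prop :=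
  ∃ ε : ℝ, 0 < ε ∧ ∀ A' : Fin (l + 1) → Matrix (Fin n) (Fin n) (Quaternion ℝ),
    Symm A' → (∀ k i j, ‖A' k i j - A k i j‖ < ε) → IsBoundedSystem A'

/-- The block companion matrix (blocks numbered from `0` to `l - 1`). -/
noncomputable def companion {n l : ℕ} (A : Fin (l + 1) → Matrix (Fin n) (Fin n) (Quaternion ℝ)) :
    Matrix (Fin l × Fin n) (Fin l × Fin n) (Quaternion ℝ) :=
  fun p q =>
    if p.1.val + 1 = l then (-(Ring.inverse (A (Fin.last l)) * A q.1.castSucc)) p.2 q.2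
    else if q.1.val = p.1.val + 1 then (1 : Matrix (Fin n) (Fin n) (Quaternion ℝ)) p.2 q.2
    else 0

/-- The matrix `G`; with blocks numbered from `0`, the block `(i, j)` is `(-1)^i A_{i+j+1}` if
`i + j + 1 ≤ l` and zero otherwise. -/
noncomputable def Gmat {n l : ℕ} (A : Fin (l + 1) → Matrix (Fin n) (Fin n) (Quaternion ℝ)) :
    Matrix (Fin l × Fin n) (Fin l × Fin n) (Quaternion ℝ) :=
  fun p q =>
    if h : p.1.val + q.1.val + 1 < l + 1 then
      (-1) ^ p.1.val * A ⟨p.1.val + q.1.val + 1, h⟩ p.2 q.2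
    else 0

/-- Right eigenvalue: `C v = v lam` for some nonzero `v`. -/
def IsEigenvalue {ι : Type} [Fintype ι] (C : Matrix ι ι (Quaternion ℝ)) (lam : Quaternion ℝ) :
    Prop :=
  ∃ v : ι → Quaternion ℝ, v ≠ 0 ∧ C *ᵥ v = fun i => v i * lam

open Classical in
/-- The real polynomial `p_lam`. -/
noncomputable def pol (lam : Quaternion ℝ) : ℝ[X] :=
  if lam.im = 0 then X - Polynomial.C lam.re
  else X ^ 2 - Polynomial.C (2 * lam.re) * X + Polynomial.C (‖lam‖ ^ 2)

/-- The root subspace `ker p_lam(C)^N`, where `N` is the size of `C`. -/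
def rootSubspace {ι : Type} [Fintype ι] [DecidableEq ι] (C : Matrix ι ι (Quaternion ℝ))
    (lam : Quaternion ℝ) : Set (ι → Quaternion ℝ) :=
  {v | (Polynomial.aeval C (pol lam)) ^ Fintype.card ι *ᵥ v = 0}

/-- `v* K v` is a positive real number for every nonzero `v` in `M`. -/
def IsPositive {ι : Type} [Fintype ι] (K : Matrix ι ι (Quaternion ℝ))
    (M : Set (ι → Quaternion ℝ)) : Prop :=
  ∀ v ∈ M, v ≠ 0 → ∃ r : ℝ, 0 < r ∧ star v ⬝ᵥ (K *ᵥ v) = (r : Quaternion ℝ)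

/-- `v* K v` is a negative real number for every nonzero `v` in `M`. -/
def IsNegative {ι : Type} [Fintype ι] (K : Matrix ι ι (Quaternion ℝ))
    (M : Set (ι → Quaternion ℝ)) : Prop :=
  ∀ v ∈ M, v ≠ 0 → ∃ r : ℝ, r < 0 ∧ star v ⬝ᵥ (K *ᵥ v) = (r : Quaternion ℝ)

end Pool.Agent.Lib.MP_554556_an
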